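import Mathlib

set_option autoImplicit false

/-! # The traces of the powers determine the characteristic polynomial

PROOF. Let `Kb = AlgebraicClosure K` and let `R` be the multiset of the roots of `M.charpoly` in
`Kb` (`M.charpoly.map (algebraMap K Kb) = (M.map ..).charpoly` splits, is monic and is the product
of the `X - x`, `x` in `R`).

(1) `trace (M ^ m) = (R.map (· ^ m)).sum` in `Kb` for all `m` (lemma `trace_pow_eq_sum_roots`).
One way: over the algebraically closed field `Kb` put `f = Matrix.toLin' M`. The space is the
internal direct sum of the generalised eigenspaces `f.maxGenEigenspace x`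
(`Module.End.iSup_maxGenEigenspace_eq_top`, `Module.End.independent_maxGenEigenspace`), these are
invariant under `f ^ m`, on each of them `f ^ m - x ^ m` is nilpotent (a multiple of the nilpotent
`f - x`), hence has trace `0`, so the trace of `f ^ m` is the sum over the eigenvalues `x` of
`finrank (maxGenEigenspace x) * x ^ m` (`LinearMap.trace_eq_sum_trace_restrict`), and
`finrank (maxGenEigenspace x)` is the multiplicity of the root `x`
(`LinearMap.finrank_maxGenEigenspace_eq` or
`LinearMap.finrank_genEigenspace...`; `Multiset.sum` over `R` as a sum over `R.toFinset` with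
multiplicities: `Finset.sum_multiset_map_count`). Another way: every `M` over `Kb` is similar to an
upper triangular matrix (induction on the size). Another way (Newton identities only): both sides
satisfy the same recursion; for matrices: with `A(X) = adjugate (charmatrix M)` compare
coefficients (`Matrix.derivative_det`...). Choose the easiest.

(2) Uniqueness: if two multisets `R`, `S` of elements of a field of characteristic `0` satisfy
`(R.map (· ^ m)).sum = (S.map (· ^ m)).sum` for all `m : ℕ` then `R = S` (lemma
`multiset_eq_of_power_sums`). Proof: let `U = R.toFinset ∪ S.toFinset` and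
`c x = (R.count x : K) - (S.count x : K)` for `x` in `U`. Then `∑ x in U, c x * x ^ m = 0` for all
`m`, hence `∑ x in U, c x * p.eval x = 0` for every polynomial `p`; with the Lagrange basis
polynomial (`p = ∏ y in U \ {x}, (X - C y)`, `p.eval x ≠ 0`, the others vanish) `c x = 0`; in
characteristic `0` the counts agree (`Nat.cast_injective`).

(3) From (1), (2) and the hypothesis, `R = L.map (algebraMap K Kb)`; so
`M.charpoly.map (algebraMap K Kb) = ((L.map fun x => X - C x).prod).map (algebraMap K Kb)`, and
`Polynomial.map_injective`. -/

namespace Pool.Agent.H70.KR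

open Polynomial

theorem multiset_eq_of_power_sums {K : Type*} [Field K] [CharZero K] (R S : Multiset K)
    (h : ∀ m : ℕ, (R.map (· ^ m)).sum = (S.map (· ^ m)).sum) : R = S := by
  classical
  have hp : ∀ p : K[X], (R.map fun x => p.eval x).sum = (S.map fun x => p.eval x).sum := by
    intro p
    induction p using Polynomial.induction_on' with
    | add p q hp hq =>
      simp only [Polynomial.eval_add]
      rw [Multiset.sum_map_add, Multiset.sum_map_add, hp, hq]
    | monomial n a =>
      simp only [Polynomial.eval_monomial]
      rw [Multiset.sum_map_mul_left, Multiset.sum_map_mul_left]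
      exact congrArg (a * ·) (h n)
  ext x
  let U : Finset K := (R.toFinset ∪ S.toFinset).erase x
  let p : K[X] := ∏ y ∈ U, (X - C y)
  have hpx : p.eval x ≠ 0 := by
    show (∏ y ∈ U, (X - C y)).eval x ≠ 0
    rw [Polynomial.eval_prod, Finset.prod_ne_zero_iff]
    intro y hy
    rw [Polynomial.eval_sub, Polynomial.eval_X, Polynomial.eval_C, sub_ne_zero]
    exact fun hxy => (Finset.ne_of_mem_erase hy) hxy.symm
  have hpy : ∀ y ∈ R.toFinset ∪ S.toFinset, y ≠ x → p.eval y = 0 := by
    intro y hy hne
    show (∏ y ∈ U, (X - C y)).eval y = 0
    rw [Polynomial.eval_prod]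
    refine Finset.prod_eq_zero (Finset.mem_erase.2 ⟨hne, hy⟩) ?_
    rw [Polynomial.eval_sub, Polynomial.eval_X, Polynomial.eval_C, sub_self]
  have key : ∀ T : Multiset K, T.toFinset ⊆ R.toFinset ∪ S.toFinset →
      (T.map fun x => p.eval x).sum = (T.count x : K) * p.eval x := by
    intro T hT
    rw [Finset.sum_multiset_map_count]
    by_cases hx : x ∈ T.toFinset
    · rw [Finset.sum_eq_single_of_mem x hx]
      · rw [nsmul_eq_mul]
      · intro y hy hne
        rw [hpy y (hT hy) hne, smul_zero]
    · have h1 : T.count x = 0 := by
        rw [Multiset.count_eq_zero]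
        exact fun h2 => hx (Multiset.mem_toFinset.2 h2)
      rw [h1, Nat.cast_zero, zero_mul]
      refine Finset.sum_eq_zero ?_
      intro y hy
      have hne : y ≠ x := by
        rintro rfl
        exact hx hy
      rw [hpy y (hT hy) hne, smul_zero]
  have h1 := key R Finset.subset_union_left
  have h2 := key S Finset.subset_union_right
  have h3 : (R.count x : K) * p.eval x = (S.count x : K) * p.eval x := by
    rw [← h1, ← h2]
    exact hp p
  exact Nat.cast_injective (mul_right_cancel₀ hpx h3)

private theorem det_aeval {K ι : Type*} [Field K] [IsAlgClosed K] [Fintype ι] [DecidableEq ι]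
    (M : Matrix ι ι K) (q : K[X]) :
    (aeval M q).det = (M.charpoly.roots.map fun x => q.eval x).prod := by
  have hcard : Multiset.card M.charpoly.roots = Fintype.card ι := by
    rw [Polynomial.splits_iff_card_roots.1 (IsAlgClosed.splits M.charpoly)]
    exact M.charpoly_natDegree_eq_dim
  have hprod : M.charpoly = (M.charpoly.roots.map fun x => X - C x).prod :=
    (IsAlgClosed.splits M.charpoly).eq_prod_roots_of_monic M.charpoly_monic
  have hmul : ∀ q1 q2 : K[X],
      (aeval M q1).det = (M.charpoly.roots.map fun x => q1.eval x).prod →
      (aeval M q2).det = (M.charpoly.roots.map fun x => q2.eval x).prod →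
      (aeval M (q1 * q2)).det = (M.charpoly.roots.map fun x => (q1 * q2).eval x).prod := by
    intro q1 q2 h1 h2
    rw [map_mul, Matrix.det_mul, h1, h2, ← Multiset.prod_map_mul]
    simp only [Polynomial.eval_mul]
  have hC : ∀ c : K, (aeval M (C c)).det = (M.charpoly.roots.map fun x => (C c).eval x).prod := by
    intro c
    simp only [Polynomial.eval_C, Multiset.map_const', Multiset.prod_replicate, hcard]
    rw [Polynomial.aeval_C, Algebra.algebraMap_eq_smul_one, Matrix.det_smul, Matrix.det_one,
      mul_one]
  have hX : ∀ a : K, (aeval M (X - C a)).det =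
      (M.charpoly.roots.map fun x => (X - C a).eval x).prod := by
    intro a
    have h1 : (aeval M (X - C a)).det = (-1) ^ Fintype.card ι * M.charpoly.eval a := by
      rw [Matrix.eval_charpoly, map_sub, Polynomial.aeval_X, Polynomial.aeval_C,
        ← Matrix.det_neg, neg_sub]
      congr 1
    have h2 : (M.charpoly.roots.map fun x => (X - C a).eval x) =
        M.charpoly.roots.map (fun x => (-1) * (X - C x).eval a) := by
      refine Multiset.map_congr rfl ?_
      intro x _
      rw [Polynomial.eval_sub, Polynomial.eval_X, Polynomial.eval_C, Polynomial.eval_sub,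
        Polynomial.eval_X, Polynomial.eval_C]
      ring
    have h3 : M.charpoly.eval a = (M.charpoly.roots.map fun x => (X - C x).eval a).prod := by
      conv_lhs => rw [hprod]
      rw [Polynomial.eval_multiset_prod, Multiset.map_map]
      rfl
    rw [h1, h2, Multiset.prod_map_mul, Multiset.map_const', Multiset.prod_replicate, hcard, h3]
  have hall : ∀ T : Multiset K, (aeval M (T.map fun a => X - C a).prod).det =
      (M.charpoly.roots.map fun x => ((T.map fun a => X - C a).prod).eval x).prod := by
    intro T
    induction T using Multiset.induction with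
    | empty =>
      have h1 := hC 1
      rw [map_one] at h1
      rw [Multiset.map_zero, Multiset.prod_zero]
      exact h1
    | cons a T ih =>
      rw [Multiset.map_cons, Multiset.prod_cons]
      exact hmul _ _ (hX a) ih
  rw [(IsAlgClosed.splits q).eq_prod_roots]
  exact hmul _ _ (hC _) (hall _)

theorem trace_pow_eq_sum_roots {K ι : Type*} [Field K] [IsAlgClosed K] [Fintype ι] [DecidableEq ι]
    (M : Matrix ι ι K) (m : ℕ) :
    (M ^ m).trace = (M.charpoly.roots.map (· ^ m)).sum := by
  have hpoly : (M ^ m).charpoly = ((M.charpoly.roots.map (· ^ m)).map fun y => X - C y).prod := by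
    refine Polynomial.funext ?_
    intro t
    rw [Matrix.eval_charpoly]
    have h1 := det_aeval M (C t - X ^ m)
    rw [map_sub, Polynomial.aeval_C, map_pow, Polynomial.aeval_X] at h1
    have h2 : (Matrix.scalar ι) t - M ^ m = (algebraMap K (Matrix ι ι K)) t - M ^ m := rfl
    rw [h2, h1, Polynomial.eval_multiset_prod, Multiset.map_map, Multiset.map_map]
    congr 1
    refine Multiset.map_congr rfl ?_
    intro x _
    simp
  rw [Matrix.trace_eq_sum_roots_charpoly, hpoly, Polynomial.roots_multiset_prod_X_sub_C]

theorem charpoly_of_traces {K ι : Type*} [Field K] [CharZero K] [Fintype ι] [DecidableEq ι]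
    (M : Matrix ι ι K) (L : Multiset K)
    (h : ∀ m : ℕ, (M ^ m).trace = (L.map (· ^ m)).sum) :
    M.charpoly = (L.map fun x => X - C x).prod := by
  let f := algebraMap K (AlgebraicClosure K)
  have : CharZero (AlgebraicClosure K) := charZero_of_injective_algebraMap f.injective
  let N : Matrix ι ι (AlgebraicClosure K) := f.mapMatrix M
  have h1 : N.charpoly.roots = L.map f := by
    refine multiset_eq_of_power_sums _ _ ?_
    intro m
    rw [← trace_pow_eq_sum_roots]
    have h2 : N ^ m = f.mapMatrix (M ^ m) := (map_pow f.mapMatrix M m).symm
    have h3 : (f.mapMatrix (M ^ m)).trace = f ((M ^ m).trace) := by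
      simp [Matrix.trace]
    rw [h2, h3, h m, map_multiset_sum, Multiset.map_map, Multiset.map_map]
    congr 1
    refine Multiset.map_congr rfl ?_
    intro x _
    exact map_pow f x m
  have h4 : N.charpoly = M.charpoly.map f := Matrix.charpoly_map M f
  refine Polynomial.map_injective f f.injective ?_
  rw [← h4, (IsAlgClosed.splits N.charpoly).eq_prod_roots_of_monic N.charpoly_monic, h1,
    Polynomial.map_multiset_prod, Multiset.map_map, Multiset.map_map]
  congr 1
  refine Multiset.map_congr rfl ?_
  intro x _
  simp

end Pool.Agent.H70.KR
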