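import Mathlib
import Pool.Agent.H69.AMU.Cable

set_option autoImplicit false

/-! # AMU conjecture in genus 0, part (IV): positive braids and Krammer's matrices (proofs 350, II)

Definitions: Krammer's matrices with one colour, positive elements of the braid group, left
divisibility, exponent sum, the matrices at `t = 0`, zero rows. -/

namespace Pool.Agent.H70.KR

open Pool.Agent.H69.AMU

/-- The index set of Krammer's matrices: pairs of positions `i < j`. -/
abbrev Pr (n : ℕ) : Type := {p : Fin n × Fin n // p.1 < p.2}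

/-- Krammer's matrix of the generator `k` (exchange of the positions `k`, `k + 1`) with parameters
`t`, `s`: the entry `(p, q)` is the coefficient of `x_p` in the image of `x_q`. -/
def kr {R : Type*} [CommRing R] (t s : R) (n k : ℕ) : Matrix (Pr n) (Pr n) R := fun p q =>
  if (q.1.1 : ℕ) = k ∧ (q.1.2 : ℕ) = k + 1 then
    (if (p.1.1 : ℕ) = k ∧ (p.1.2 : ℕ) = k + 1 then t * s ^ 2 else 0)
  else if (q.1.1 : ℕ) < k ∧ (q.1.2 : ℕ) = k then
    (if (p.1.1 : ℕ) = q.1.1 ∧ (p.1.2 : ℕ) = k then 1 - s else 0) +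
      (if (p.1.1 : ℕ) = q.1.1 ∧ (p.1.2 : ℕ) = k + 1 then s else 0)
  else if (q.1.1 : ℕ) < k ∧ (q.1.2 : ℕ) = k + 1 then
    (if (p.1.1 : ℕ) = q.1.1 ∧ (p.1.2 : ℕ) = k then 1 else 0) +
      (if (p.1.1 : ℕ) = k ∧ (p.1.2 : ℕ) = k + 1 then t * s ^ (k - q.1.1 + 1) * (s - 1) else 0)
  else if (q.1.1 : ℕ) = k ∧ k + 1 < (q.1.2 : ℕ) then
    (if (p.1.1 : ℕ) = k + 1 ∧ (p.1.2 : ℕ) = q.1.2 then s else 0) +
      (if (p.1.1 : ℕ) = k ∧ (p.1.2 : ℕ) = k + 1 then t * s * (s - 1) else 0)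
  else if (q.1.1 : ℕ) = k + 1 ∧ k + 1 < (q.1.2 : ℕ) then
    (if (p.1.1 : ℕ) = k ∧ (p.1.2 : ℕ) = q.1.2 then 1 else 0) +
      (if (p.1.1 : ℕ) = k + 1 ∧ (p.1.2 : ℕ) = q.1.2 then 1 - s else 0)
  else if (q.1.1 : ℕ) < k ∧ k + 1 < (q.1.2 : ℕ) then
    (if p = q then 1 else 0) +
      (if (p.1.1 : ℕ) = k ∧ (p.1.2 : ℕ) = k + 1 then t * s ^ (k - q.1.1) * (s - 1) ^ 2 else 0)
  else if p = q then 1 else 0

/-- Positive elements of the braid group: products of generators. -/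
def IsPos (n : ℕ) (g : BraidGroup n) : Prop :=
  ∃ w : List ℕ, (∀ i ∈ w, i < n - 1) ∧ g = (w.map (gen n)).prod

/-- Left divisibility: `a⁻¹ g` is positive. -/
def LD {n : ℕ} (a g : BraidGroup n) : Prop := IsPos n (a⁻¹ * g)

lemma artinSeq_const (n : ℕ) :
    ArtinSeq (fun _ : ℕ => Multiplicative.ofAdd (1 : ℤ)) (n - 1) :=
  ⟨fun _ _ _ _ => rfl, fun _ _ => rfl⟩

/-- The exponent sum. -/
def len (n : ℕ) : BraidGroup n →* Multiplicative ℤ := braidLift (artinSeq_const n)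

lemma len_gen {n i : ℕ} (hi : i < n - 1) : len n (gen n i) = Multiplicative.ofAdd 1 :=
  braidLift_gen _ hi

lemma isPos_one (n : ℕ) : IsPos n 1 := ⟨[], by simp, by simp⟩

lemma isPos_gen {n i : ℕ} (hi : i < n - 1) : IsPos n (gen n i) := ⟨[i], by simpa using hi, by simp⟩

lemma IsPos.mul {n : ℕ} {g h : BraidGroup n} (hg : IsPos n g) (hh : IsPos n h) :
    IsPos n (g * h) := by
  obtain ⟨w, hw, rfl⟩ := hg
  obtain ⟨v, hv, rfl⟩ := hh
  refine ⟨w ++ v, ?_, by simp⟩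
  intro i hi
  rcases List.mem_append.1 hi with h | h
  · exact hw i h
  · exact hv i h

/-- Induction principle for positive elements (adding a generator on the left). -/
lemma IsPos.induct {n : ℕ} {C : BraidGroup n → Prop} (h1 : C 1)
    (h2 : ∀ k, k < n - 1 → ∀ g, IsPos n g → C g → C (gen n k * g)) {g : BraidGroup n}
    (hg : IsPos n g) : C g := by
  obtain ⟨w, hw, rfl⟩ := hg
  induction w with
  | nil => simpa using h1
  | cons k w ih =>
    rw [List.map_cons, List.prod_cons]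
    have hw' : ∀ i ∈ w, i < n - 1 := fun i hi => hw i (List.mem_cons_of_mem _ hi)
    exact h2 k (hw k (by simp)) _ ⟨w, hw', rfl⟩ (ih hw')

/-- Krammer's matrices at `t = 0`, `s = 1/2` on the positive elements. -/
structure KF (n : ℕ) where
  /-- the matrices -/
  P : BraidGroup n → Matrix (Pr n) (Pr n) ℝ
  one : P 1 = 1
  mul_gen : ∀ g, IsPos n g → ∀ k, k < n - 1 → P (gen n k * g) = kr (0 : ℝ) (1 / 2) n k * P g

/-- The row `(i, j)` of `P g` is zero (vacuous if `i < j < n` fails). -/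
def KF.ZR {n : ℕ} (F : KF n) (g : BraidGroup n) (i j : ℕ) : Prop :=
  ∀ (h : i < j) (hj : j < n) (q : Pr n), F.P g ⟨(⟨i, by omega⟩, ⟨j, hj⟩), h⟩ q = 0

/-- The half twist on the first `m + 1` strands: `(s_0) (s_1 s_0) ... (s_(m-1) ... s_0)`. -/
def Dl (n : ℕ) : ℕ → BraidGroup n
  | 0 => 1
  | m + 1 => Dl n m * desc (gen n) 0 (m + 1)

/-- The half twist `Delta`. -/
def Delta (n : ℕ) : BraidGroup n := Dl n (n - 1)

/-- The full twist `Delta ^ 2`. -/
def th (n : ℕ) : BraidGroup n := Delta n * Delta n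

end Pool.Agent.H70.KR
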