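import Mathlib

set_option autoImplicit false

/-! # Valuations of Laurent polynomials and of matrices over them -/

namespace Pool.Agent.H70.KR

open LaurentPolynomial

/-- All coefficients of index below `e` vanish. -/
def VG (e : ℤ) (x : LaurentPolynomial ℝ) : Prop := ∀ i : ℤ, i < e → x.coeff i = 0

/-- All entries have valuation at least `e`. -/
def VM {ι κ : Type*} (e : ℤ) (M : Matrix ι κ (LaurentPolynomial ℝ)) : Prop := ∀ i j, VG e (M i j)

lemma VG.zero (e : ℤ) : VG e 0 := fun i _ => by simp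

lemma VG.add {e : ℤ} {x y : LaurentPolynomial ℝ} (hx : VG e x) (hy : VG e y) : VG e (x + y) :=
  fun i hi => by rw [AddMonoidAlgebra.coeff_add, Finsupp.add_apply, hx i hi, hy i hi, add_zero]

lemma VG.neg {e : ℤ} {x : LaurentPolynomial ℝ} (hx : VG e x) : VG e (-x) :=
  fun i hi => by rw [AddMonoidAlgebra.coeff_neg, Finsupp.neg_apply, hx i hi, neg_zero]

lemma VG.sub {e : ℤ} {x y : LaurentPolynomial ℝ} (hx : VG e x) (hy : VG e y) : VG e (x - y) := by
  rw [sub_eq_add_neg]
  exact hx.add hy.neg

lemma VG.sum {ι : Type*} {e : ℤ} {s : Finset ι} {f : ι → LaurentPolynomial ℝ}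
    (h : ∀ i ∈ s, VG e (f i)) : VG e (∑ i ∈ s, f i) := by
  classical
  induction s using Finset.induction_on with
  | empty => simpa using VG.zero e
  | insert a s ha ih =>
    rw [Finset.sum_insert ha]
    exact (h a (by simp)).add (ih fun i hi => h i (by simp [hi]))

lemma VG.mono {e f : ℤ} {x : LaurentPolynomial ℝ} (hx : VG f x) (h : e ≤ f) : VG e x :=
  fun i hi => hx i (by omega)

lemma VG.mul {e f : ℤ} {x y : LaurentPolynomial ℝ} (hx : VG e x) (hy : VG f y) :
    VG (e + f) (x * y) := by
  classical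
  intro i hi
  rw [AddMonoidAlgebra.coeff_mul]
  apply Finset.sum_eq_zero
  intro a _
  apply Finset.sum_eq_zero
  intro b _
  beta_reduce
  split_ifs with h
  · by_cases ha : a < e
    · rw [hx a ha, zero_mul]
    · rw [hy b (by omega), mul_zero]
  · rfl

/-- The leading coefficient of a product. -/
lemma VG.coeff_mul {e f : ℤ} {x y : LaurentPolynomial ℝ} (hx : VG e x) (hy : VG f y) :
    (x * y).coeff (e + f) = x.coeff e * y.coeff f := by
  classical
  rw [AddMonoidAlgebra.coeff_mul]
  have h1 : ∀ a ∈ x.coeff.support, a ≠ e →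
      (y.coeff.sum fun m₂ r₂ => if a + m₂ = e + f then x.coeff a * r₂ else 0) = 0 := by
    intro a _ hae
    apply Finset.sum_eq_zero
    intro b _
    beta_reduce
    split_ifs with h
    · by_cases ha : a < e
      · rw [hx a ha, zero_mul]
      · have : e < a := by omega
        rw [hy b (by omega), mul_zero]
    · rfl
  have h2 : x.coeff.sum (fun m₁ r₁ => y.coeff.sum fun m₂ r₂ =>
      if m₁ + m₂ = e + f then r₁ * r₂ else 0)
      = y.coeff.sum fun m₂ r₂ => if e + m₂ = e + f then x.coeff e * r₂ else 0 := by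
    rw [Finsupp.sum, Finset.sum_eq_single e h1]
    intro he
    rw [Finsupp.notMem_support_iff.1 he]
    apply Finset.sum_eq_zero
    intro b _
    simp
  rw [h2, Finsupp.sum, Finset.sum_eq_single f]
  · simp
  · intro b _ hb
    rw [if_neg (by omega)]
  · intro hf
    rw [Finsupp.notMem_support_iff.1 hf]
    simp

lemma exists_VG (x : LaurentPolynomial ℝ) : ∃ e : ℤ, VG e x := by
  classical
  by_cases h : x.coeff.support.Nonempty
  · refine ⟨x.coeff.support.min' h, fun i hi => ?_⟩
    by_contra hne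
    have := x.coeff.support.min'_le i (Finsupp.mem_support_iff.2 hne)
    omega
  · refine ⟨0, fun i _ => ?_⟩
    by_contra hne
    exact h ⟨i, Finsupp.mem_support_iff.2 hne⟩

lemma VG_T (e : ℤ) : VG e (T e) := by
  intro i hi
  rw [T, AddMonoidAlgebra.coeff_single, Finsupp.single_apply, if_neg (by omega)]

lemma VG_C (a : ℝ) : VG 0 (C a) := by
  intro i hi
  rw [← single_eq_C, AddMonoidAlgebra.coeff_single, Finsupp.single_apply, if_neg (by omega)]

lemma VG_one : VG 0 (1 : LaurentPolynomial ℝ) := by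
  have := VG_C 1
  rwa [map_one] at this

section
variable {ι κ l : Type*} {e f : ℤ}

lemma VM.mono {M : Matrix ι κ (LaurentPolynomial ℝ)} (hM : VM f M) (h : e ≤ f) : VM e M :=
  fun i j => (hM i j).mono h

lemma VM.mul [Fintype κ] {M : Matrix ι κ (LaurentPolynomial ℝ)}
    {N : Matrix κ l (LaurentPolynomial ℝ)} (hM : VM e M) (hN : VM f N) : VM (e + f) (M * N) := by
  intro i j
  rw [Matrix.mul_apply]
  exact VG.sum fun k _ => (hM i k).mul (hN k j)

lemma VM.add {M N : Matrix ι κ (LaurentPolynomial ℝ)} (hM : VM e M) (hN : VM e N) :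
    VM e (M + N) := fun i j => (hM i j).add (hN i j)

lemma VM.sum {α : Type*} {s : Finset α} {F : α → Matrix ι κ (LaurentPolynomial ℝ)}
    (h : ∀ a ∈ s, VM e (F a)) : VM e (∑ a ∈ s, F a) := by
  intro i j
  rw [Matrix.sum_apply]
  exact VG.sum fun a ha => h a ha i j

lemma VM.smul {c : LaurentPolynomial ℝ} (hc : VG e c) {M : Matrix ι κ (LaurentPolynomial ℝ)}
    (hM : VM f M) : VM (e + f) (c • M) := fun i j => hc.mul (hM i j)

lemma VM_one [DecidableEq ι] : VM 0 (1 : Matrix ι ι (LaurentPolynomial ℝ)) := by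
  intro i j
  rw [Matrix.one_apply]
  split_ifs
  · exact VG_one
  · exact VG.zero 0

lemma VM.pow [Fintype ι] [DecidableEq ι] {M : Matrix ι ι (LaurentPolynomial ℝ)} (hM : VM 0 M)
    (m : ℕ) : VM 0 (M ^ m) := by
  induction m with
  | zero => simpa using VM_one
  | succ m ih =>
    rw [pow_succ]
    simpa using ih.mul hM

lemma exists_VM [Fintype ι] [Fintype κ] (M : Matrix ι κ (LaurentPolynomial ℝ)) :
    ∃ e : ℤ, VM e M := by
  choose f hf using fun p : ι × κ => exists_VG (M p.1 p.2)
  refine ⟨-∑ p : ι × κ, |f p|, fun i j => (hf (i, j)).mono ?_⟩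
  have h1 : |f (i, j)| ≤ ∑ p : ι × κ, |f p| :=
    Finset.single_le_sum (f := fun p => |f p|) (fun p _ => abs_nonneg _) (Finset.mem_univ (i, j))
  have h2 := neg_abs_le (f (i, j))
  omega

/-- A finite family of matrices has a common lower bound of the valuations. -/
lemma exists_VM_range [Fintype ι] [Fintype κ] (F : ℕ → Matrix ι κ (LaurentPolynomial ℝ)) (N : ℕ) :
    ∃ e : ℤ, ∀ a < N, VM e (F a) := by
  induction N with
  | zero => exact ⟨0, fun a ha => absurd ha (by omega)⟩
  | succ N ih =>
    obtain ⟨e, he⟩ := ih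
    obtain ⟨f, hf⟩ := exists_VM (F N)
    refine ⟨min e f, fun a ha => ?_⟩
    rcases Nat.lt_succ_iff_lt_or_eq.1 ha with h | rfl
    · exact (he a h).mono (min_le_left _ _)
    · exact hf.mono (min_le_right _ _)

end

end Pool.Agent.H70.KR
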