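import Mathlib
import Pool.Agent.H70.KR.Val
import Pool.Agent.H70.KR.Newt

/-! # Powers of a matrix over the Laurent polynomials whose eigenvalues have valuation `≥ c`

PROOF of `vm_pow_of_charpoly`. Let `N` be the size of `M` (`Fintype.card ι`), `p = M.charpoly`,
monic of degree `N`. By Cayley-Hamilton (`Matrix.aeval_self_charpoly`) and
`M ^ m = M ^ (m - N) * M ^ N`: `M ^ m = - ∑ i < N, p.coeff i • M ^ (m - N + i)` for `m ≥ N`
(`Polynomial.aeval_eq_sum_range`, separate the leading term). Choose `e` with `VM e (M ^ i)` for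
`i < N` (`exists_VM_range`; for `N = 0` everything is trivial). Strong induction: `VM e (M ^ m)` for
all `m` (`VM.smul` with `VG 0 (p.coeff i)`, `VM.sum`, negation). Take `C = (-e).toNat` (`VM.mono`).
PROOF of `coeff_prod_VG`. The set `{x | VG 0 x}` is a subring; the product of the `X - C x` has all
coefficients in it: induction over the multiset (`Multiset.induction`), the coefficients of
`(X - C x) * q` are `q.coeff (i - 1) - x * q.coeff i` (`Polynomial.coeff_X_sub_C_mul`,
`Polynomial.mul_coeff_zero`).
PROOF of `power_bound`. Put `M1 = T (-c) • M` and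
`L = E.map fun x => T (x.1 - c) * C ((1/2) ^ x.2)` (multiset in the Laurent polynomials).
`trace (M1 ^ m) = T (-c * m) * trace (M ^ m) = (L.map (· ^ m)).sum` (`smul_pow`, `trace_smul`,
`T_pow`, `T_add`, `← C.map_pow`, `zpow_mul`, `Multiset.sum_map_mul_left`). Let
`K = FractionRing (LaurentPolynomial ℝ)` (a field of characteristic zero; `LaurentPolynomial ℝ` is
an integral domain) and `φ = algebraMap _ K`, injective. `charpoly_of_traces` for `M1.map φ`
(`Matrix.map_pow`, trace of the map) gives
`(M1.map φ).charpoly = ((L.map φ).map fun x => X - C x).prod`, and `Matrix.charpoly_map`,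
`Polynomial.map_multiset_prod`, `Polynomial.map_injective` give
`M1.charpoly = (L.map fun x => X - C x).prod`. All elements of `L` have `VG 0` (`VG_T`, `VG.mono`
with `0 ≤ x.1 - c`, `VG_C`, `VG.mul`), so by `coeff_prod_VG` and `vm_pow_of_charpoly` there is `C`
with `VM (-C) (M1 ^ m)` for all `m`; `M ^ m = T (c * m) • M1 ^ m` (`VM.smul`). -/

set_option autoImplicit false

namespace Pool.Agent.H70.KR

open Polynomial LaurentPolynomial

variable {ι : Type} [Fintype ι] [DecidableEq ι]

theorem vm_pow_of_charpoly (M : Matrix ι ι (LaurentPolynomial ℝ))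
    (hM : ∀ i, VG 0 (M.charpoly.coeff i)) : ∃ C : ℕ, ∀ m : ℕ, VM (-(C : ℤ)) (M ^ m) := by
  classical
  obtain ⟨N, hN⟩ : ∃ N, N = Fintype.card ι := ⟨_, rfl⟩
  obtain ⟨e, he⟩ := exists_VM_range (fun i => M ^ i) N
  have hmain : ∀ m, VM e (M ^ m) := by
    intro m
    induction m using Nat.strong_induction_on with
    | _ m ih =>
      rcases lt_or_ge m N with h | h
      · exact he m h
      · have hCH : aeval M M.charpoly = 0 := Matrix.aeval_self_charpoly M
        rw [Polynomial.aeval_eq_sum_range, M.charpoly_natDegree_eq_dim, ← hN, Finset.sum_range_succ] at hCH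
        have hlead : M.charpoly.coeff N = 1 := by
          have := M.charpoly_monic
          rw [Polynomial.Monic, leadingCoeff, M.charpoly_natDegree_eq_dim, ← hN] at this
          exact this
        rw [hlead, one_smul] at hCH
        have h1 : M ^ N = -∑ i ∈ Finset.range N, M.charpoly.coeff i • M ^ i := by
          rw [eq_neg_iff_add_eq_zero, add_comm]
          exact hCH
        have h2 : M ^ m = -∑ i ∈ Finset.range N, M.charpoly.coeff i • M ^ (m - N + i) := by
          have h3 : M ^ m = M ^ (m - N) * M ^ N := by rw [← pow_add, Nat.sub_add_cancel h]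
          rw [h3, h1, mul_neg, Finset.mul_sum]
          congr 1
          refine Finset.sum_congr rfl fun i _ => ?_
          rw [mul_smul_comm, ← pow_add]
        rw [h2]
        have h3 : VM e (∑ i ∈ Finset.range N, M.charpoly.coeff i • M ^ (m - N + i)) := by
          refine VM.sum fun i hi => ?_
          have hi' := Finset.mem_range.1 hi
          have h4 := VM.smul (hM i) (ih (m - N + i) (by omega))
          rwa [zero_add] at h4
        exact fun i j => (h3 i j).neg
  refine ⟨(-e).toNat, fun m => (hmain m).mono ?_⟩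
  have := Int.self_le_toNat (-e)
  omega

theorem coeff_prod_VG (L : Multiset (LaurentPolynomial ℝ)) (hL : ∀ x ∈ L, VG 0 x) (i : ℕ) :
    VG 0 (((L.map fun x => (X - Polynomial.C x : Polynomial (LaurentPolynomial ℝ))).prod).coeff i) := by
  induction L using Multiset.induction generalizing i with
  | empty =>
    rw [Multiset.map_zero, Multiset.prod_zero, Polynomial.coeff_one]
    split_ifs
    · exact VG_one
    · exact VG.zero 0
  | cons a L ih =>
    rw [Multiset.map_cons, Multiset.prod_cons]
    have h1 := fun i => ih (fun x hx => hL x (Multiset.mem_cons_of_mem hx)) i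
    have ha := hL a (Multiset.mem_cons_self a L)
    cases i with
    | zero =>
      rw [Polynomial.mul_coeff_zero, Polynomial.coeff_sub, Polynomial.coeff_X_zero, Polynomial.coeff_C_zero,
        zero_sub]
      have := (ha.neg).mul (h1 0)
      rwa [zero_add] at this
    | succ i =>
      rw [Polynomial.coeff_X_sub_C_mul]
      have h2 := ha.mul (h1 (i + 1))
      rw [zero_add] at h2
      exact (h1 i).sub h2

theorem power_bound (M : Matrix ι ι (LaurentPolynomial ℝ)) (E : Multiset (ℤ × ℤ)) (c : ℤ)
    (hE : ∀ x ∈ E, c ≤ x.1)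
    (htr : ∀ m : ℕ, (M ^ m).trace =
      (E.map fun x => (T ((m : ℤ) * x.1) * LaurentPolynomial.C ((1 / 2 : ℝ) ^ ((m : ℤ) * x.2)) :
        LaurentPolynomial ℝ)).sum) :
    ∃ C : ℕ, ∀ m : ℕ, VM (c * m - C) (M ^ m) := by
  classical
  obtain ⟨M1, hM1⟩ : ∃ M1 : Matrix ι ι (LaurentPolynomial ℝ), M1 = (T (-c) : LaurentPolynomial ℝ) • M := ⟨_, rfl⟩
  obtain ⟨L, hL⟩ : ∃ L : Multiset (LaurentPolynomial ℝ),
      L = E.map fun x => T (x.1 - c) * LaurentPolynomial.C ((1 / 2 : ℝ) ^ x.2) := ⟨_, rfl⟩
  have htr1 : ∀ m : ℕ, (M1 ^ m).trace = (L.map (· ^ m)).sum := by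
    intro m
    rw [hM1, _root_.smul_pow, Matrix.trace_smul, htr m, hL, Multiset.map_map, smul_eq_mul, ← Multiset.sum_map_mul_left]
    congr 1
    refine Multiset.map_congr rfl fun x _ => ?_
    simp only [Function.comp]
    rw [mul_pow, T_pow, T_pow, ← mul_assoc, ← T_add, ← map_pow, ← zpow_natCast ((1 / 2 : ℝ) ^ x.2) m, ← zpow_mul]
    congr 2
    · ring
    · rw [mul_comm]
  have hφ : Function.Injective (algebraMap (LaurentPolynomial ℝ) (FractionRing (LaurentPolynomial ℝ))) :=
    IsFractionRing.injective _ _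
  obtain ⟨φ, hφd⟩ : ∃ φ : LaurentPolynomial ℝ →+* FractionRing (LaurentPolynomial ℝ), φ = algebraMap _ _ := ⟨_, rfl⟩
  rw [← hφd] at hφ
  have hchar : CharZero (FractionRing (LaurentPolynomial ℝ)) := by
    have h1 : Function.Injective (φ.comp (LaurentPolynomial.C : ℝ →+* LaurentPolynomial ℝ)) := RingHom.injective _
    exact charZero_of_injective_ringHom h1
  have hcp : (φ.mapMatrix M1).charpoly = ((L.map φ).map fun x => X - Polynomial.C x).prod := by
    refine charpoly_of_traces _ _ fun m => ?_
    rw [← map_pow, Multiset.map_map]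
    have h2 : (φ.mapMatrix (M1 ^ m)).trace = φ ((M1 ^ m).trace) := by
      simp [Matrix.trace]
    rw [h2, htr1 m, map_multiset_sum, Multiset.map_map]
    congr 1
    refine Multiset.map_congr rfl fun x _ => ?_
    exact map_pow φ x m
  have hcp1 : M1.charpoly = (L.map fun x => X - Polynomial.C x).prod := by
    refine Polynomial.map_injective φ hφ ?_
    rw [← Matrix.charpoly_map]
    have h3 : M1.map φ = φ.mapMatrix M1 := rfl
    rw [h3, hcp, Polynomial.map_multiset_prod, Multiset.map_map, Multiset.map_map]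
    congr 1
    refine Multiset.map_congr rfl fun x _ => ?_
    simp
  have hLV : ∀ x ∈ L, VG 0 x := by
    intro x hx
    rw [hL, Multiset.mem_map] at hx
    obtain ⟨y, hy, rfl⟩ := hx
    have h4 := ((VG_T (y.1 - c)).mono (e := 0) (by have := hE y hy; omega)).mul (VG_C ((1 / 2 : ℝ) ^ y.2))
    rwa [zero_add] at h4
  obtain ⟨C, hC⟩ := vm_pow_of_charpoly M1 (fun i => by
    rw [hcp1]
    exact coeff_prod_VG L hLV i)
  refine ⟨C, fun m => ?_⟩
  have h5 : M ^ m = (T (c * m) : LaurentPolynomial ℝ) • M1 ^ m := by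
    rw [hM1, _root_.smul_pow, smul_smul, T_pow, ← T_add]
    have : c * (m : ℤ) + (m : ℤ) * -c = 0 := by ring
    rw [this, T_zero, one_smul]
  rw [h5]
  have h6 := VM.smul (VG_T (c * m)) (hC m)
  exact h6

end Pool.Agent.H70.KR
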