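import Mathlib
import Pool.Agent.H70.KR.Def

set_option autoImplicit false

/-! # Divisibility in the braid group: elementary facts -/

namespace Pool.Agent.H70.KR

open Pool.Agent.H69.AMU

variable {n : ℕ}

/-- The exponent sum as an integer. -/
def ln (n : ℕ) (g : BraidGroup n) : ℤ := Multiplicative.toAdd (len n g)

lemma ln_mul (g h : BraidGroup n) : ln n (g * h) = ln n g + ln n h := by
  unfold ln
  rw [map_mul, toAdd_mul]

lemma ln_one : ln n (1 : BraidGroup n) = 0 := by
  unfold ln
  rw [map_one, toAdd_one]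

lemma ln_inv (g : BraidGroup n) : ln n g⁻¹ = - ln n g := by
  unfold ln
  rw [map_inv, toAdd_inv]

lemma ln_gen {i : ℕ} (hi : i < n - 1) : ln n (gen n i) = 1 := by
  unfold ln
  rw [len_gen hi, toAdd_ofAdd]

lemma ln_word {w : List ℕ} (hw : ∀ i ∈ w, i < n - 1) :
    ln n ((w.map (gen n)).prod) = w.length := by
  induction w with
  | nil => simpa using ln_one
  | cons k w ih =>
    rw [List.map_cons, List.prod_cons, ln_mul, ln_gen (hw k (by simp)),
      ih fun i hi => hw i (List.mem_cons_of_mem _ hi), List.length_cons]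
    push_cast
    ring

lemma IsPos.ln_nonneg {g : BraidGroup n} (hg : IsPos n g) : 0 ≤ ln n g := by
  obtain ⟨w, hw, rfl⟩ := hg
  rw [ln_word hw]
  positivity

lemma IsPos.eq_one {g : BraidGroup n} (hg : IsPos n g) (h : ln n g = 0) : g = 1 := by
  obtain ⟨w, hw, rfl⟩ := hg
  rw [ln_word hw] at h
  have : w.length = 0 := by exact_mod_cast h
  rw [List.length_eq_zero_iff] at this
  subst this
  simp

/-- A positive element is `1` or a generator times a positive element. -/
lemma IsPos.cases {g : BraidGroup n} (hg : IsPos n g) :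
    g = 1 ∨ ∃ i, i < n - 1 ∧ ∃ h, IsPos n h ∧ g = gen n i * h := by
  obtain ⟨w, hw, rfl⟩ := hg
  cases w with
  | nil => left; simp
  | cons k w =>
    right
    exact ⟨k, hw k (by simp), (w.map (gen n)).prod, ⟨w, fun i hi => hw i (List.mem_cons_of_mem _ hi), rfl⟩,
      by simp⟩

lemma LD.refl (g : BraidGroup n) : LD g g := by
  unfold LD
  rw [inv_mul_cancel]
  exact isPos_one n

lemma LD.trans {a b c : BraidGroup n} (h1 : LD a b) (h2 : LD b c) : LD a c := by
  have h := IsPos.mul h1 h2
  unfold LD
  rwa [mul_assoc, mul_inv_cancel_left] at h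

lemma LD.antisymm {a b : BraidGroup n} (h1 : LD a b) (h2 : LD b a) : a = b := by
  have e1 := IsPos.ln_nonneg h1
  have e2 := IsPos.ln_nonneg h2
  rw [ln_mul, ln_inv] at e1 e2
  have h3 := IsPos.eq_one h1 (by rw [ln_mul, ln_inv]; omega)
  exact inv_mul_eq_one.1 h3

/-- Left divisibility is invariant under left multiplication. -/
lemma LD_mul_left (x a g : BraidGroup n) : LD (x * a) (x * g) ↔ LD a g := by
  unfold LD
  rw [mul_inv_rev, mul_assoc, inv_mul_cancel_left]

lemma LD_one {g : BraidGroup n} : LD 1 g ↔ IsPos n g := by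
  unfold LD
  rw [inv_one, one_mul]

lemma LD.isPos {a g : BraidGroup n} (h : LD a g) (ha : IsPos n a) : IsPos n g := by
  have := ha.mul h
  rwa [mul_inv_cancel_left] at this

lemma LD_mul_right {a h : BraidGroup n} (hh : IsPos n h) : LD a (a * h) := by
  unfold LD
  rwa [inv_mul_cancel_left]

/-- `a` divides `g` iff `g = a * h` with `h` positive. -/
lemma LD_iff {a g : BraidGroup n} : LD a g ↔ ∃ h, IsPos n h ∧ g = a * h := by
  constructor
  · intro h
    exact ⟨a⁻¹ * g, h, by rw [mul_inv_cancel_left]⟩
  · rintro ⟨h, hh, rfl⟩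
    exact LD_mul_right hh

lemma LD.ln_le {a g : BraidGroup n} (h : LD a g) : ln n a ≤ ln n g := by
  have := IsPos.ln_nonneg h
  rw [ln_mul, ln_inv] at this
  omega

lemma gen_comm {i j : ℕ} (h : i + 2 ≤ j ∨ j + 2 ≤ i) (hi : i < n - 1) (hj : j < n - 1) :
    gen n i * gen n j = gen n j * gen n i := by
  rcases h with h | h
  · exact (artinSeq_gen n).comm i j h hj
  · exact ((artinSeq_gen n).comm j i h hi).symm

lemma gen_braid {i : ℕ} (hi : i + 1 < n - 1) :
    gen n i * gen n (i + 1) * gen n i = gen n (i + 1) * gen n i * gen n (i + 1) :=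
  (artinSeq_gen n).braid i hi

lemma isPos_desc {k d : ℕ} (h : k + d ≤ n - 1) : IsPos n (desc (gen n) k d) := by
  induction d generalizing k with
  | zero => simpa [desc] using isPos_one n
  | succ d ih =>
    rw [desc]
    exact (ih (by omega)).mul (isPos_gen (by omega))

lemma isPos_Dl {m : ℕ} (h : m ≤ n - 1) : IsPos n (Dl n m) := by
  induction m with
  | zero => exact isPos_one n
  | succ m ih =>
    rw [Dl]
    exact (ih (by omega)).mul (isPos_desc (by omega))

lemma isPos_Delta : IsPos n (Delta n) := isPos_Dl le_rfl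

lemma isPos_th : IsPos n (th n) := isPos_Delta.mul isPos_Delta

/-- Descending products in the other direction: the largest generator first. -/
lemma desc_succ' {G : Type*} [Group G] (s : ℕ → G) (k d : ℕ) :
    desc s k (d + 1) = s (k + d) * desc s k d := by
  induction d generalizing k with
  | zero => simp [desc]
  | succ d ih =>
    rw [desc, ih (k + 1), desc, mul_assoc, show k + 1 + d = k + (d + 1) by omega]

end Pool.Agent.H70.KR
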