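import Mathlib
import Pool.Agent.H70.KR.Div

set_option autoImplicit false

/-! # The half twist

`desc (gen n) k d = gen (k+d-1) * ... * gen k`; `B m := desc (gen n) 0 m = gen (m-1) * ... * gen 0`;
`Dl n (m+1) = Dl n m * B (m+1)`; `Delta n = Dl n (n-1)`; `th n = Delta n * Delta n`.
PROOF of `Dl_gen` (induction on `m`; `hm : m ≤ n - 1`, `i < m`). Step `m + 1`, `i < m + 1`:
* `1 ≤ i`: `B (m+1) * gen i = gen (i-1) * B (m+1)` (`desc_slide (artinSeq_gen n) (m+1) 0 i`), and
  `Dl m * gen (i-1) = gen (m-1-(i-1)) * Dl m` by induction; `m - 1 - (i-1) = m - i`.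
* `i = 0`, `m = 0`: `Dl 1 = gen 0`. `i = 0`, `m ≥ 1`: write `Dl (m+1) = Dl (m-1) * B m * B (m+1)`.
  First `B (m+1) * B m' = ...`: for `j ≤ m`: `B (m+1) * desc (gen n) 1 m = B m * B (m+1)` (each
  factor `gen j`, `1 ≤ j ≤ m`, of `desc (gen n) 1 m = gen m * ... * gen 1` becomes `gen (j-1)`;
  induction with `desc_slide`), hence `B (m+1) * B (m+1) = B (m+1) * (desc (gen n) 1 m * gen 0)
  = B m * B (m+1) * gen 0`. On the other hand `B (m+1) = gen m * B m` (`desc_succ'`), so
  `B (m+1) * B (m+1) = gen m * B m * B (m+1)`. So `B m * B (m+1) * gen 0 = gen m * B m * B (m+1)`,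
  and `gen m` commutes with `Dl (m-1)`, a product of `gen j` with `j ≤ m - 2` (`comm_Dl`,
  `comm_desc` by induction).
`delta_gen` is the case `m = n - 1`. `th_central`: `th * gen i = Delta * gen (n-2-i) * Delta
= gen i * th` for `i < n - 1`; then `closure_gen` (`Subgroup.closure_induction`; the centraliser of
`th n` is a subgroup, `Subgroup.closure_le`).
`gen_dvd_Dl`: for `j < m` the generator `gen j` divides `Dl m` on the left. `Dl m = Dl (j+1) *` (a
positive element) (`Dl_split` by induction), so take `m = j + 1`. `Dl (j+1) = Dl j * B (j+1)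
= X * gen 0` with `X = Dl j * desc (gen n) 1 j` positive. By `Dl_gen`,
`Dl (j+1) * gen 0 = gen j * Dl (j+1) = gen j * X * gen 0`, so `Dl (j+1) = gen j * X`.
`exists_th_pow`: let `H` be the set of `h` such that some `th ^ m * h` is positive; it contains the
generators (`m = 0`), their inverses (`th * (gen i)⁻¹ = (gen i)⁻¹ * Delta * Delta`, `th` is central,
and `(gen i)⁻¹ * Delta` is positive by `gen_dvd_Dl`) and is closed under products
(`th ^ (m + m') * (h * h') = (th ^ m * h) * (th ^ m' * h')`); so `{h | h ∈ H ∧ h⁻¹ ∈ H}` is a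
subgroup containing the generators (`closure_gen`). For `n ≤ 1` there are no generators and
`closure_gen` gives `h = 1`, too. The exponent can be increased (`exists_th_pow'`): `th` is
positive. -/

namespace Pool.Agent.H70.KR

open Pool.Agent.H69.AMU

variable {n : ℕ}

lemma desc_comm_up (d : ℕ) : ∀ k j, k + d + 1 ≤ j → j < n - 1 →
    desc (gen n) k d * gen n j = gen n j * desc (gen n) k d := by
  induction d with
  | zero => intro k j _ _; simp [desc]
  | succ d ih =>
    intro k j hj hjn
    rw [desc, mul_assoc, gen_comm (Or.inl (by omega)) (by omega) hjn, ← mul_assoc,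
      ih (k + 1) j (by omega) hjn, mul_assoc]

lemma Dl_comm_up {m j : ℕ} (hj : m + 1 ≤ j) (hjn : j < n - 1) :
    Dl n m * gen n j = gen n j * Dl n m := by
  induction m with
  | zero => simp [Dl]
  | succ m ih =>
    rw [Dl, mul_assoc, desc_comm_up (m + 1) 0 j (by omega) hjn, ← mul_assoc, ih (by omega),
      mul_assoc]

lemma desc_conj {m : ℕ} (hm : m + 1 ≤ n - 1) (d : ℕ) : ∀ k, k + d ≤ m →
    desc (gen n) 0 (m + 1) * desc (gen n) (k + 1) d =
      desc (gen n) k d * desc (gen n) 0 (m + 1) := by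
  induction d with
  | zero => intro k _; simp [desc]
  | succ d ih =>
    intro k hk
    have e1 : desc (gen n) (k + 1) (d + 1) = desc (gen n) (k + 1 + 1) d * gen n (k + 1) := rfl
    have e2 : desc (gen n) k (d + 1) = desc (gen n) (k + 1) d * gen n k := rfl
    rw [e1, e2, ← mul_assoc, ih (k + 1) (by omega), mul_assoc,
      desc_slide (artinSeq_gen n) (m + 1) 0 (k + 1) (by omega) (by omega) (by omega),
      Nat.add_sub_cancel, ← mul_assoc]

lemma B_gen_zero {m : ℕ} (hm : m + 1 ≤ n - 1) :
    desc (gen n) 0 m * desc (gen n) 0 (m + 1) * gen n 0 =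
      gen n m * desc (gen n) 0 m * desc (gen n) 0 (m + 1) := by
  have h1 := desc_conj hm m 0 (by omega)
  have h2 : desc (gen n) 0 (m + 1) = desc (gen n) 1 m * gen n 0 := rfl
  have h3 : desc (gen n) 0 (m + 1) = gen n m * desc (gen n) 0 m := by
    rw [desc_succ', Nat.zero_add]
  rw [Nat.zero_add] at h1
  rw [← h1, ← h3, mul_assoc, ← h2]

theorem Dl_gen {m : ℕ} (hm : m ≤ n - 1) {i : ℕ} (hi : i < m) :
    Dl n m * gen n i = gen n (m - 1 - i) * Dl n m := by
  induction m generalizing i with
  | zero => omega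
  | succ m ih =>
    rcases Nat.eq_zero_or_pos i with h0 | h0
    · subst h0
      cases m with
      | zero => simp [Dl, desc]
      | succ m =>
        have h1 := B_gen_zero (n := n) (m := m + 1) (by omega)
        have h2 : m + 1 + 1 - 1 - 0 = m + 1 := by omega
        rw [h2, Dl, Dl]
        calc _ = Dl n m * (desc (gen n) 0 (m + 1) * desc (gen n) 0 (m + 1 + 1) * gen n 0) := by
              simp only [mul_assoc]
          _ = Dl n m * gen n (m + 1) * (desc (gen n) 0 (m + 1) *
                desc (gen n) 0 (m + 1 + 1)) := by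
              rw [h1]
              simp only [mul_assoc]
          _ = _ := by
              rw [Dl_comm_up le_rfl (by omega)]
              simp only [mul_assoc]
    · have h1 := desc_slide (artinSeq_gen n) (m + 1) 0 i (by omega) (by omega) (by omega)
      have h2 := ih (by omega) (i := i - 1) (by omega)
      have h3 : m - 1 - (i - 1) = m + 1 - 1 - i := by omega
      rw [Dl, mul_assoc, h1, ← mul_assoc, h2, h3, mul_assoc]

theorem delta_gen {i : ℕ} (hi : i < n - 1) :
    Delta n * gen n i = gen n (n - 2 - i) * Delta n := by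
  have h1 := Dl_gen (n := n) le_rfl hi
  have h2 : n - 1 - 1 - i = n - 2 - i := by omega
  rw [h2] at h1
  exact h1

theorem th_gen {i : ℕ} (hi : i < n - 1) : th n * gen n i = gen n i * th n := by
  have h1 := delta_gen hi
  have h2 := delta_gen (n := n) (i := n - 2 - i) (by omega)
  have h3 : n - 2 - (n - 2 - i) = i := by omega
  rw [h3] at h2
  rw [th, mul_assoc, h1, ← mul_assoc, h2, mul_assoc]

theorem th_central (g : BraidGroup n) : th n * g = g * th n := by
  have h1 : Subgroup.closure (gen n '' Set.Iio (n - 1)) ≤ Subgroup.centralizer {th n} := by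
    rw [Subgroup.closure_le]
    rintro _ ⟨i, hi, rfl⟩
    rw [SetLike.mem_coe, Subgroup.mem_centralizer_singleton_iff]
    exact (th_gen hi).symm
  rw [closure_gen] at h1
  exact (Subgroup.mem_centralizer_singleton_iff.1 (h1 (Subgroup.mem_top g))).symm

lemma Dl_split {a b : ℕ} (hab : a ≤ b) (hb : b ≤ n - 1) :
    ∃ p, IsPos n p ∧ Dl n b = Dl n a * p := by
  obtain ⟨d, rfl⟩ := Nat.exists_eq_add_of_le hab
  clear hab
  induction d with
  | zero => exact ⟨1, isPos_one n, by simp⟩
  | succ d ih =>
    obtain ⟨p, hp, hp2⟩ := ih (by omega)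
    refine ⟨p * desc (gen n) 0 (a + d + 1), hp.mul (isPos_desc (by omega)), ?_⟩
    have h1 : Dl n (a + (d + 1)) = Dl n (a + d) * desc (gen n) 0 (a + d + 1) := rfl
    rw [h1, hp2, mul_assoc]

theorem gen_dvd_Delta {i : ℕ} (hi : i < n - 1) : LD (gen n i) (Delta n) := by
  obtain ⟨p, hp, hp2⟩ := Dl_split (n := n) (a := i + 1) (b := n - 1) (by omega) le_rfl
  have h1 := Dl_gen (n := n) (m := i + 1) (by omega) (i := 0) (by omega)
  have h2 : i + 1 - 1 - 0 = i := by omega
  rw [h2] at h1
  have h3 : Dl n (i + 1) = Dl n i * desc (gen n) 1 i * gen n 0 := by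
    rw [Dl, desc, mul_assoc]
  have h4 : Dl n (i + 1) = gen n i * (Dl n i * desc (gen n) 1 i) := by
    have h5 : Dl n (i + 1) * gen n 0 = gen n i * (Dl n i * desc (gen n) 1 i) * gen n 0 := by
      rw [h1]
      nth_rewrite 1 [h3]
      simp only [mul_assoc]
    exact mul_right_cancel h5
  rw [LD_iff]
  refine ⟨Dl n i * desc (gen n) 1 i * p,
    ((isPos_Dl (by omega)).mul (isPos_desc (by omega))).mul hp, ?_⟩
  rw [Delta, hp2, h4]
  simp only [mul_assoc]

lemma th_pow_comm (m : ℕ) (h : BraidGroup n) : h * th n ^ m = th n ^ m * h :=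
  ((show Commute (th n) h from th_central h).pow_left m).symm

theorem exists_th_pow (h : BraidGroup n) : ∃ m : ℕ, IsPos n (th n ^ m * h) := by
  have key : ∀ a b : BraidGroup n, (∃ m : ℕ, IsPos n (th n ^ m * a)) →
      (∃ m : ℕ, IsPos n (th n ^ m * b)) → ∃ m : ℕ, IsPos n (th n ^ m * (a * b)) := by
    rintro a b ⟨m, hm⟩ ⟨m', hm'⟩
    refine ⟨m + m', ?_⟩
    have h1 : th n ^ (m + m') * (a * b) = (th n ^ m * a) * (th n ^ m' * b) := by
      rw [pow_add]
      calc _ = th n ^ m * (th n ^ m' * a) * b := by simp only [mul_assoc]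
        _ = th n ^ m * (a * th n ^ m') * b := by rw [th_pow_comm m' a]
        _ = _ := by simp only [mul_assoc]
    rw [h1]
    exact hm.mul hm'
  have hall : ∀ g ∈ Subgroup.closure (gen n '' Set.Iio (n - 1)),
      (∃ m : ℕ, IsPos n (th n ^ m * g)) ∧ ∃ m : ℕ, IsPos n (th n ^ m * g⁻¹) := by
    intro g hg
    induction hg using Subgroup.closure_induction with
    | mem x hx =>
      obtain ⟨i, hi, rfl⟩ := hx
      refine ⟨⟨0, ?_⟩, ⟨1, ?_⟩⟩
      · rw [pow_zero, one_mul]
        exact isPos_gen hi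
      · rw [pow_one, th_central, th, ← mul_assoc]
        exact (gen_dvd_Delta hi).mul isPos_Delta
    | one =>
      refine ⟨⟨0, ?_⟩, ⟨0, ?_⟩⟩
      · simpa using isPos_one n
      · simpa using isPos_one n
    | mul x y _ _ hx hy =>
      refine ⟨key x y hx.1 hy.1, ?_⟩
      rw [mul_inv_rev]
      exact key _ _ hy.2 hx.2
    | inv x _ hx =>
      refine ⟨hx.2, ?_⟩
      rw [inv_inv]
      exact hx.1
  rw [closure_gen] at hall
  exact (hall h (Subgroup.mem_top h)).1

/-- The exponent can be chosen arbitrarily large. -/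
theorem exists_th_pow' (h : BraidGroup n) : ∃ m : ℕ, ∀ k : ℕ, m ≤ k → IsPos n (th n ^ k * h) := by
  obtain ⟨m, hm⟩ := exists_th_pow h
  refine ⟨m, fun k hk => ?_⟩
  obtain ⟨d, rfl⟩ := Nat.exists_eq_add_of_le hk
  have h1 : th n ^ (m + d) * h = th n ^ d * (th n ^ m * h) := by
    rw [← mul_assoc, ← pow_add, add_comm d m]
  rw [h1]
  clear h1 hk
  induction d with
  | zero => simpa using hm
  | succ d ih =>
    have h2 : th n ^ (d + 1) * (th n ^ m * h) = th n * (th n ^ d * (th n ^ m * h)) := by
      rw [pow_succ']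
      simp only [mul_assoc]
    rw [h2]
    exact isPos_th.mul ih

end Pool.Agent.H70.KR
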