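import Mathlib
import Pool.Agent.H70.KR.Def

set_option autoImplicit false

/-! # Zero rows of the nonnegative matrices `P g`

`F : KF n` gives real matrices `F.P g` for positive `g` with `F.P 1 = 1` and
`F.P (gen n k * g) = kr 0 (1/2) n k * F.P g`. The rows of `kr 0 (1/2) n k` (insert `t = 0`,
`s = 1/2` in the definition; rows and columns are indexed by pairs of positions):
* row `(k, k+1)` is zero;
* row `(i, k)`, `i < k`: entry `1/2` at column `(i, k)`, entry `1` at column `(i, k+1)`, else `0`;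
* row `(i, k+1)`, `i < k`: entry `1/2` at column `(i, k)`, else `0`;
* row `(k, j)`, `k + 1 < j`: entry `1` at column `(k+1, j)`, else `0`;
* row `(k+1, j)`, `k + 1 < j`: entries `1/2` at the columns `(k, j)` and `(k+1, j)`, else `0`;
* every other row `p`: entry `1` at column `p`, else `0`.
PROOF. `nonneg`: induction (`IsPos.induct`), all entries of `kr 0 (1/2) n k` are `≥ 0` (case
distinction) and products of nonnegative matrices are nonnegative. The other statements: write the
row of the product as `Matrix.mul_apply` and evaluate the sum over the at most two nonzero entries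
of the row (for instance first prove the general lemma
`kr 0 (1/2) n k * M` row formulas: `(kr 0 (1/2) n k * M) ⟨(i,k)⟩ q = 1/2 * M ⟨(i,k)⟩ q
+ M ⟨(i,k+1)⟩ q` etc., by `Finset.sum_eq_single` or `Finset.sum_eq_add`, and by
`Finset.sum_eq_zero` if nothing remains); a sum of nonnegative multiples of two nonnegative numbers
with positive coefficients is `0` iff both are `0` (`nonneg`). Note that `F.ZR g i j` is vacuous
(true) unless `i < j < n`; so in all statements both sides hold trivially if `j ≥ n` etc. -/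

namespace Pool.Agent.H70.KR

open Pool.Agent.H69.AMU

/-- the index `(i, j)` -/
private def pix (n i j : ℕ) (h : i < j) (hj : j < n) : Pr n := ⟨(⟨i, by omega⟩, ⟨j, hj⟩), h⟩

private theorem pix_eq {n i j : ℕ} (h : i < j) (hj : j < n) (r : Pr n) :
    pix n i j h hj = r ↔ (r.1.1 : ℕ) = i ∧ (r.1.2 : ℕ) = j := by
  obtain ⟨⟨a, b⟩, hab⟩ := r
  simp only [pix, Subtype.mk.injEq, Prod.mk.injEq, Fin.ext_iff]
  constructor
  · rintro ⟨h1, h2⟩
    exact ⟨h1.symm, h2.symm⟩
  · rintro ⟨h1, h2⟩
    exact ⟨h1.symm, h2.symm⟩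

private theorem pix_lt {n : ℕ} (r : Pr n) : (r.1.1 : ℕ) < r.1.2 := r.2

private theorem kr_pix {n k i j : ℕ} (h : i < j) (hj : j < n) (r : Pr n) :
    kr (0 : ℝ) (1 / 2) n k (pix n i j h hj) r =
      if (r.1.1 : ℕ) = k ∧ (r.1.2 : ℕ) = k + 1 then 0
      else if (r.1.1 : ℕ) < k ∧ (r.1.2 : ℕ) = k then
        (if i = r.1.1 ∧ j = k then 1 / 2 else 0) + (if i = r.1.1 ∧ j = k + 1 then 1 / 2 else 0)
      else if (r.1.1 : ℕ) < k ∧ (r.1.2 : ℕ) = k + 1 then
        (if i = r.1.1 ∧ j = k then 1 else 0)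
      else if (r.1.1 : ℕ) = k ∧ k + 1 < (r.1.2 : ℕ) then
        (if i = k + 1 ∧ j = r.1.2 then 1 / 2 else 0)
      else if (r.1.1 : ℕ) = k + 1 ∧ k + 1 < (r.1.2 : ℕ) then
        (if i = k ∧ j = r.1.2 then 1 else 0) + (if i = k + 1 ∧ j = r.1.2 then 1 / 2 else 0)
      else if (r.1.1 : ℕ) = i ∧ (r.1.2 : ℕ) = j then 1 else 0 := by
  unfold kr
  simp only [pix_eq, zero_mul, ite_self, add_zero]
  have e1 : ((pix n i j h hj).1.1 : ℕ) = i := rfl
  have e2 : ((pix n i j h hj).1.2 : ℕ) = j := rfl
  have e3 : (1 : ℝ) - 1 / 2 = 1 / 2 := by norm_num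
  rw [e1, e2, e3]

private theorem kr_nn {n k : ℕ} (p r : Pr n) : 0 ≤ kr (0 : ℝ) (1 / 2) n k p r := by
  have h : p = pix n p.1.1 p.1.2 p.2 p.1.2.2 := rfl
  rw [h, kr_pix]
  split_ifs <;> norm_num

private theorem row_self {n k : ℕ} (h : k < k + 1) (hj : k + 1 < n) (r : Pr n) :
    kr (0 : ℝ) (1 / 2) n k (pix n k (k + 1) h hj) r = 0 := by
  rw [kr_pix]
  have := pix_lt r
  split_ifs <;> first | omega | norm_num

private theorem row_left {n k i : ℕ} (hi : i < k) (hk : k < n) (hi' : i < k + 1)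
    (hk' : k + 1 < n) (r : Pr n) :
    kr (0 : ℝ) (1 / 2) n k (pix n i k hi hk) r =
      (if pix n i k hi hk = r then 1 / 2 else 0) +
        (if pix n i (k + 1) hi' hk' = r then 1 else 0) := by
  rw [kr_pix, if_congr (pix_eq _ _ _) rfl rfl, if_congr (pix_eq _ _ _) rfl rfl]
  have := pix_lt r
  split_ifs <;> first | omega | norm_num

private theorem row_left' {n k i : ℕ} (hi : i < k) (hk : k < n) (hi' : i < k + 1)
    (hk' : k + 1 < n) (r : Pr n) :
    kr (0 : ℝ) (1 / 2) n k (pix n i (k + 1) hi' hk') r =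
      (if pix n i k hi hk = r then 1 / 2 else 0) := by
  rw [kr_pix, if_congr (pix_eq _ _ _) rfl rfl]
  have := pix_lt r
  split_ifs <;> first | omega | norm_num

private theorem row_right {n k j : ℕ} (hj : k + 1 < j) (hj' : k < j) (hn : j < n) (r : Pr n) :
    kr (0 : ℝ) (1 / 2) n k (pix n k j hj' hn) r =
      (if pix n (k + 1) j hj hn = r then 1 else 0) := by
  rw [kr_pix, if_congr (pix_eq _ _ _) rfl rfl]
  have := pix_lt r
  split_ifs <;> first | omega | norm_num

private theorem row_right' {n k j : ℕ} (hj : k + 1 < j) (hj' : k < j) (hn : j < n) (r : Pr n) :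
    kr (0 : ℝ) (1 / 2) n k (pix n (k + 1) j hj hn) r =
      (if pix n k j hj' hn = r then 1 / 2 else 0) +
        (if pix n (k + 1) j hj hn = r then 1 / 2 else 0) := by
  rw [kr_pix, if_congr (pix_eq _ _ _) rfl rfl, if_congr (pix_eq _ _ _) rfl rfl]
  have := pix_lt r
  split_ifs <;> first | omega | norm_num

private theorem row_other {n k i j : ℕ} (hij : i < j) (hn : j < n) (h1 : i ≠ k)
    (h2 : i ≠ k + 1) (h3 : j ≠ k) (h4 : j ≠ k + 1) (r : Pr n) :
    kr (0 : ℝ) (1 / 2) n k (pix n i j hij hn) r = (if pix n i j hij hn = r then 1 else 0) := by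
  rw [kr_pix, if_congr (pix_eq _ _ _) rfl rfl]
  have := pix_lt r
  split_ifs <;> first | omega | norm_num

namespace KF

variable {n : ℕ} (F : KF n)

private theorem zr_iff (g : BraidGroup n) {i j : ℕ} (h : i < j) (hj : j < n) :
    F.ZR g i j ↔ ∀ q, F.P g (pix n i j h hj) q = 0 :=
  ⟨fun H q => H h hj q, fun H _ _ q => H q⟩

theorem nonneg {g : BraidGroup n} (hg : IsPos n g) (p q : Pr n) : 0 ≤ F.P g p q := by
  revert p q
  refine IsPos.induct (C := fun g => ∀ p q : Pr n, 0 ≤ F.P g p q) ?_ ?_ hg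
  · intro p q
    rw [F.one, Matrix.one_apply]
    split_ifs <;> norm_num
  · intro k hk g hg ih p q
    rw [F.mul_gen g hg k hk, Matrix.mul_apply]
    exact Finset.sum_nonneg fun r _ => mul_nonneg (kr_nn _ _) (ih _ _)

theorem not_zr_one {i j : ℕ} (hij : i < j) (hj : j < n) : ¬ F.ZR 1 i j := by
  intro H
  have := H hij hj (pix n i j hij hj)
  rw [F.one] at this
  have h2 : (1 : Matrix (Pr n) (Pr n) ℝ) (pix n i j hij hj) (pix n i j hij hj) = 0 := this
  rw [Matrix.one_apply_eq] at h2
  exact one_ne_zero h2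

theorem zr_self {g : BraidGroup n} (hg : IsPos n g) {k : ℕ} (hk : k < n - 1) :
    F.ZR (gen n k * g) k (k + 1) := by
  rw [zr_iff F _ (by omega : k < k + 1) (by omega)]
  intro q
  rw [F.mul_gen g hg k hk, Matrix.mul_apply]
  exact Finset.sum_eq_zero fun r _ => by rw [row_self, zero_mul]

theorem zr_left {g : BraidGroup n} (hg : IsPos n g) {k i : ℕ} (hk : k < n - 1) (hi : i < k) :
    F.ZR (gen n k * g) i k ↔ F.ZR g i k ∧ F.ZR g i (k + 1) := by
  rw [zr_iff F _ hi (by omega), zr_iff F _ hi (by omega : k < n),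
    zr_iff F _ (by omega : i < k + 1) (by omega), ← forall_and]
  refine forall_congr' fun q => ?_
  have h1 := F.nonneg hg (pix n i k hi (by omega)) q
  have h2 := F.nonneg hg (pix n i (k + 1) (by omega) (by omega)) q
  rw [F.mul_gen g hg k hk, Matrix.mul_apply]
  simp only [row_left hi (by omega : k < n) (by omega) (by omega : k + 1 < n), add_mul, ite_mul, zero_mul, one_mul, Finset.sum_add_distrib,
    Finset.sum_ite_eq, Finset.mem_univ, if_true]
  constructor
  · intro h
    constructor <;> linarith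
  · rintro ⟨h3, h4⟩
    rw [h3, h4]
    norm_num

theorem zr_left' {g : BraidGroup n} (hg : IsPos n g) {k i : ℕ} (hk : k < n - 1) (hi : i < k) :
    F.ZR (gen n k * g) i (k + 1) ↔ F.ZR g i k := by
  rw [zr_iff F _ (by omega : i < k + 1) (by omega), zr_iff F _ hi (by omega)]
  refine forall_congr' fun q => ?_
  rw [F.mul_gen g hg k hk, Matrix.mul_apply]
  simp only [row_left' hi (by omega : k < n) (by omega) (by omega : k + 1 < n), ite_mul, zero_mul, Finset.sum_ite_eq, Finset.mem_univ, if_true]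
  constructor
  · intro h
    linarith
  · intro h
    rw [h, mul_zero]

theorem zr_right {g : BraidGroup n} (hg : IsPos n g) {k j : ℕ} (hk : k < n - 1) (hj : k + 1 < j) :
    F.ZR (gen n k * g) k j ↔ F.ZR g (k + 1) j := by
  by_cases hn : j < n
  · rw [zr_iff F _ (by omega : k < j) hn, zr_iff F _ hj hn]
    refine forall_congr' fun q => ?_
    rw [F.mul_gen g hg k hk, Matrix.mul_apply]
    simp only [row_right hj (by omega) hn, ite_mul, zero_mul, one_mul, Finset.sum_ite_eq, Finset.mem_univ,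
      if_true]
  · exact ⟨fun _ _ h => absurd h hn, fun _ _ h => absurd h hn⟩

theorem zr_right' {g : BraidGroup n} (hg : IsPos n g) {k j : ℕ} (hk : k < n - 1) (hj : k + 1 < j) :
    F.ZR (gen n k * g) (k + 1) j ↔ F.ZR g k j ∧ F.ZR g (k + 1) j := by
  by_cases hn : j < n
  · rw [zr_iff F _ hj hn, zr_iff F _ (by omega : k < j) hn, zr_iff F _ hj hn, ← forall_and]
    refine forall_congr' fun q => ?_
    have h1 := F.nonneg hg (pix n k j (by omega) hn) q
    have h2 := F.nonneg hg (pix n (k + 1) j hj hn) q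
    rw [F.mul_gen g hg k hk, Matrix.mul_apply]
    simp only [row_right' hj (by omega) hn, add_mul, ite_mul, zero_mul, Finset.sum_add_distrib,
      Finset.sum_ite_eq, Finset.mem_univ, if_true]
    constructor
    · intro h
      constructor <;> linarith
    · rintro ⟨h3, h4⟩
      rw [h3, h4]
      norm_num
  · exact ⟨fun _ => ⟨fun _ h => absurd h hn, fun _ h => absurd h hn⟩, fun _ _ h => absurd h hn⟩

theorem zr_other {g : BraidGroup n} (hg : IsPos n g) {k i j : ℕ} (hk : k < n - 1) (h1 : i ≠ k)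
    (h2 : i ≠ k + 1) (h3 : j ≠ k) (h4 : j ≠ k + 1) :
    F.ZR (gen n k * g) i j ↔ F.ZR g i j := by
  by_cases hij : i < j
  · by_cases hn : j < n
    · rw [zr_iff F _ hij hn, zr_iff F _ hij hn]
      refine forall_congr' fun q => ?_
      rw [F.mul_gen g hg k hk, Matrix.mul_apply]
      simp only [row_other hij hn h1 h2 h3 h4, ite_mul, zero_mul, one_mul, Finset.sum_ite_eq,
        Finset.mem_univ, if_true]
    · exact ⟨fun _ _ h => absurd h hn, fun _ _ h => absurd h hn⟩
  · exact ⟨fun _ h => absurd h hij, fun _ h => absurd h hij⟩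

end KF

end Pool.Agent.H70.KR
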