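import Mathlib
import Pool.Agent.H70.KR.Div
import Pool.Agent.H70.KR.Row

set_option autoImplicit false

/-! # A zero row `(i, i+1)` means divisibility by the generator `i`

PROOF of `lemma_K`. Induction on the length of a positive word for `g` (for instance on a bound `N`
of `ln n g`), for all `i`. If `g = 1`: `F.not_zr_one`. Otherwise `g = gen n j * h`, `h` positive and
shorter (`IsPos.cases`).
* `j = i`: clear (`LD_mul_right`).
* `i + 2 ≤ j` or `j + 2 ≤ i`: row `(i, i+1)` of `h` is zero (`zr_other`), so `h = gen n i * h'`
  with `h'` positive, and `gen n j * gen n i = gen n i * gen n j` (`gen_comm`), so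
  `g = gen n i * (gen n j * h')`.
* `j = i + 1`: the row `(i, i+1)` is the row `(i, k)` for `k = j = i + 1`: by `zr_left` the rows
  `(i, i+1)` and `(i, i+2)` of `h` are zero. By induction `h = gen n i * h'`. The row `(i, i+2)` of
  `gen n i * h'` is the row `(k, j)` for `k = i`: by `zr_right` the row `(i+1, i+2)` of `h'` is zero.
  By induction `h' = gen n (i+1) * h''`. So
  `g = gen n (i+1) * gen n i * gen n (i+1) * h'' = gen n i * gen n (i+1) * gen n i * h''`.
* `i = j + 1`: the row `(i, i+1)` is the row `(k+1, j')` for `k = j`, `j' = j + 2`: by `zr_right'`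
  the rows `(j, j+2)` and `(j+1, j+2)` of `h` are zero. By induction (row `(i, i+1)`)
  `h = gen n i * h'`. The row `(j, j+2)` of `gen n (j+1) * h'` is the row `(i', k+1)` for
  `k = j + 1`, `i' = j`: by `zr_left'` the row `(j, j+1)` of `h'` is zero. By induction
  `h' = gen n j * h''`. So `g = gen n j * gen n (j+1) * gen n j * h''
  = gen n (j+1) * gen n j * gen n (j+1) * h''`. -/

namespace Pool.Agent.H70.KR

open Pool.Agent.H69.AMU

variable {n : ℕ}

private lemma lemK_aux (F : KF n) : ∀ (N : ℕ) (g : BraidGroup n), IsPos n g → ln n g < N →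
    ∀ i, i < n - 1 → F.ZR g i (i + 1) → LD (gen n i) g := by
  intro N
  induction N with
  | zero =>
    intro g hg hN
    have := hg.ln_nonneg
    push_cast at hN
    omega
  | succ N ih =>
    intro g hg hN i hi hz
    rcases hg.cases with rfl | ⟨j, hj, h, hh, rfl⟩
    · exact absurd hz (F.not_zr_one (by omega) (by omega))
    · rw [ln_mul, ln_gen hj] at hN
      push_cast at hN
      by_cases e1 : j = i
      · subst e1
        exact LD_mul_right hh
      by_cases e2 : j = i + 1
      · subst e2
        obtain ⟨z1, z2⟩ := (F.zr_left hh hj (Nat.lt_succ_self i)).1 hz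
        obtain ⟨h', hh', rfl⟩ := LD_iff.1 (ih h hh (by omega) i hi z1)
        have z3 := (F.zr_right hh' hi (j := i + 1 + 1) (by omega)).1 z2
        rw [ln_mul, ln_gen hi] at hN
        obtain ⟨h'', hh'', rfl⟩ := LD_iff.1 (ih h' hh' (by omega) (i + 1) hj z3)
        have e : gen n (i + 1) * (gen n i * (gen n (i + 1) * h''))
            = gen n i * (gen n (i + 1) * gen n i * h'') := by
          calc gen n (i + 1) * (gen n i * (gen n (i + 1) * h''))
              = (gen n (i + 1) * gen n i * gen n (i + 1)) * h'' := by group
            _ = (gen n i * gen n (i + 1) * gen n i) * h'' := by rw [gen_braid hj]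
            _ = _ := by group
        rw [e]
        exact LD_mul_right (((isPos_gen hj).mul (isPos_gen hi)).mul hh'')
      by_cases e3 : i = j + 1
      · subst e3
        obtain ⟨z1, z2⟩ := (F.zr_right' hh hj (j := j + 1 + 1) (by omega)).1 hz
        obtain ⟨h', hh', rfl⟩ := LD_iff.1 (ih h hh (by omega) (j + 1) hi z2)
        have z3 := (F.zr_left' hh' hi (Nat.lt_succ_self j)).1 z1
        rw [ln_mul, ln_gen hi] at hN
        obtain ⟨h'', hh'', rfl⟩ := LD_iff.1 (ih h' hh' (by omega) j hj z3)
        have e : gen n j * (gen n (j + 1) * (gen n j * h''))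
            = gen n (j + 1) * (gen n j * gen n (j + 1) * h'') := by
          calc gen n j * (gen n (j + 1) * (gen n j * h''))
              = (gen n j * gen n (j + 1) * gen n j) * h'' := by group
            _ = (gen n (j + 1) * gen n j * gen n (j + 1)) * h'' := by rw [gen_braid hi]
            _ = _ := by group
        rw [e]
        exact LD_mul_right (((isPos_gen hj).mul (isPos_gen hi)).mul hh'')
      · have z1 := (F.zr_other hh hj (i := i) (j := i + 1) (by omega) (by omega) (by omega)
          (by omega)).1 hz
        obtain ⟨h', hh', rfl⟩ := LD_iff.1 (ih h hh (by omega) i hi z1)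
        have e : gen n j * (gen n i * h') = gen n i * (gen n j * h') := by
          rw [← mul_assoc, gen_comm (by omega) hj hi, mul_assoc]
        rw [e]
        exact LD_mul_right ((isPos_gen hj).mul hh')

theorem lemma_K (F : KF n) {g : BraidGroup n} (hg : IsPos n g) {i : ℕ} (hi : i < n - 1)
    (hz : F.ZR g i (i + 1)) : LD (gen n i) g := by
  have h0 := hg.ln_nonneg
  exact lemK_aux F ((ln n g).toNat + 1) g hg (by push_cast; omega) i hi hz

end Pool.Agent.H70.KR
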