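import Mathlib
import Pool.Agent.H70.KR.LemK

set_option autoImplicit false

/-! # Two generators dividing a positive braid

PROOF. `lcm_far`: `g = gen n i * h` with `h` positive. The row `(j, j+1)` of `g` is zero because
`gen n j` divides `g` (`g = gen n j * h1`, `zr_self`). By `zr_other` the row `(j, j+1)` of `h` is
zero, so `gen n j` divides `h` (`lemma_K`), `h = gen n j * h'`.
`lcm_near`: `g = gen n i * h`, `h` positive. The row `(i+1, i+2)` of `g` is zero (`gen n (i+1)`
divides `g`, `zr_self`). It is the row `(k+1, j)` for `k = i`, `j = i + 2`: by `zr_right'` the rows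
`(i, i+2)` and `(i+1, i+2)` of `h` are zero. By `lemma_K`, `h = gen n (i+1) * h'`. The row
`(i, i+2)` of `gen n (i+1) * h'` is the row `(i, k+1)` for `k = i + 1`: by `zr_left'` the row
`(i, i+1)` of `h'` is zero; `lemma_K`: `h' = gen n i * h''`. -/

namespace Pool.Agent.H70.KR

open Pool.Agent.H69.AMU

variable {n : ℕ}

theorem lcm_far (F : KF n) {g : BraidGroup n} (hg : IsPos n g) {i j : ℕ} (hi : i < n - 1)
    (hj : j < n - 1) (hij : i + 2 ≤ j ∨ j + 2 ≤ i) (h1 : LD (gen n i) g) (h2 : LD (gen n j) g) :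
    LD (gen n i * gen n j) g := by
  obtain ⟨h, hh, rfl⟩ := LD_iff.1 h1
  obtain ⟨h', hh', e⟩ := LD_iff.1 h2
  have h3 : F.ZR (gen n i * h) j (j + 1) := by
    rw [e]
    exact F.zr_self hh' hj
  have h4 : F.ZR h j (j + 1) :=
    (F.zr_other hh hi (by omega) (by omega) (by omega) (by omega)).1 h3
  exact (LD_mul_left _ _ _).2 (lemma_K F hh hj h4)

theorem lcm_near (F : KF n) {g : BraidGroup n} (hg : IsPos n g) {i : ℕ} (hi : i + 1 < n - 1)
    (h1 : LD (gen n i) g) (h2 : LD (gen n (i + 1)) g) :
    LD (gen n i * gen n (i + 1) * gen n i) g := by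
  obtain ⟨h, hh, rfl⟩ := LD_iff.1 h1
  obtain ⟨h', hh', e⟩ := LD_iff.1 h2
  have h3 : F.ZR (gen n i * h) (i + 1) (i + 2) := by
    rw [e]
    exact F.zr_self hh' hi
  obtain ⟨h4, h5⟩ := (F.zr_right' hh (by omega) (by omega)).1 h3
  obtain ⟨k, hk, rfl⟩ := LD_iff.1 (lemma_K F hh hi h5)
  have h6 : F.ZR k i (i + 1) := (F.zr_left' hk hi (by omega)).1 h4
  rw [mul_assoc, LD_mul_left, LD_mul_left]
  exact lemma_K F hk (by omega) h6

/-- The least common multiple of two different generators, in one statement. -/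
theorem exists_lcm_gen (F : KF n) {i j : ℕ} (hi : i < n - 1) (hj : j < n - 1) (hij : i ≠ j) :
    ∃ u v : BraidGroup n, IsPos n u ∧ IsPos n v ∧ gen n i * u = gen n j * v ∧
      ∀ g, IsPos n g → LD (gen n i) g → LD (gen n j) g → LD (gen n i * u) g := by
  rcases lt_or_gt_of_ne hij with h | h
  · by_cases h2 : j = i + 1
    · subst h2
      refine ⟨gen n (i + 1) * gen n i, gen n i * gen n (i + 1), (isPos_gen hj).mul (isPos_gen hi),
        (isPos_gen hi).mul (isPos_gen hj), ?_, ?_⟩
      · rw [← mul_assoc, ← mul_assoc]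
        exact gen_braid hj
      · intro g hg a b
        rw [← mul_assoc]
        exact lcm_near F hg hj a b
    · refine ⟨gen n j, gen n i, isPos_gen hj, isPos_gen hi, ?_, ?_⟩
      · exact gen_comm (Or.inl (by omega)) hi hj
      · intro g hg a b
        exact lcm_far F hg hi hj (Or.inl (by omega)) a b
  · by_cases h2 : i = j + 1
    · subst h2
      refine ⟨gen n j * gen n (j + 1), gen n (j + 1) * gen n j, (isPos_gen hj).mul (isPos_gen hi),
        (isPos_gen hi).mul (isPos_gen hj), ?_, ?_⟩
      · rw [← mul_assoc, ← mul_assoc]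
        exact (gen_braid hi).symm
      · intro g hg a b
        rw [← mul_assoc, ← gen_braid hi]
        exact lcm_near F hg hi b a
    · refine ⟨gen n j, gen n i, isPos_gen hj, isPos_gen hi, ?_, ?_⟩
      · exact gen_comm (Or.inr (by omega)) hi hj
      · intro g hg a b
        exact lcm_far F hg hi hj (Or.inr (by omega)) a b

end Pool.Agent.H70.KR
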