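import Mathlib
import Pool.Agent.H70.KR.LemL

set_option autoImplicit false

/-! # Common multiples inside a divisor-closed set

PROOF of `exists_lcm`. Induction on a bound `N` with `ln n g ≤ N` (natural number), for all
`a`, `b`, `g`. If `a = 1` take `m = b`; if `b = 1` take `m = a` (`LD_one`, `LD.refl`; for the last
statement: `c` arbitrary, `LD b c`). Otherwise `a = gen n i * a'`, `b = gen n j * b'` with `a'`,
`b'` positive (`IsPos.cases`). `g' := (gen n i)⁻¹ * g` is positive (`LD.trans` of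
`LD (gen n i) a` and `LD a g`) and `ln n g' = ln n g - 1`. `LD_mul_left` moves factors:
`LD a' g'` iff `LD a g`.
* `i = j`: induction for `a'`, `b'`, `g'` gives `m'`; `m = gen n i * m'` (all four statements by
  `LD_mul_left`; for the last one write `c = gen n i * ((gen n i)⁻¹ * c)`).
* `i ≠ j`: `u`, `v` from `exists_lcm_gen`, `D = gen n i * u = gen n j * v`; `LD D g` (`g` is
  positive, `LD (gen n i) g`, `LD (gen n j) g`). Induction for `a'`, `u`, `g'`: `m1`. Put
  `a1 = u⁻¹ * m1` (positive as `LD u m1`), so `gen n i * m1 = D * a1`. In the same way with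
  `g'' = (gen n j)⁻¹ * g`: `m2` for `b'`, `v`, and `b1 = v⁻¹ * m2`, `gen n j * m2 = D * b1`.
  Then `LD a1 (D⁻¹ * g)` and `LD b1 (D⁻¹ * g)` (from `LD m1 g'`, `LD m2 g''` by `LD_mul_left`) and
  `ln n (D⁻¹ * g) < ln n g`: induction gives `m3`; `m = D * m3`.
  `LD a m`: `a = gen n i * a'`, `LD a' m1`, so `LD a (gen n i * m1) = LD a (D * a1)`, and
  `LD (D * a1) (D * m3)`. Similarly `LD b m`. `LD m g` from `LD m3 (D⁻¹ * g)`. If `LD a c` and
  `LD b c`: `c` is positive (`LD.isPos`), `LD D c` by `exists_lcm_gen`; `LD a' ((gen n i)⁻¹ * c)`,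
  `LD u ((gen n i)⁻¹ * c)` (from `LD D c`), so `LD m1 ((gen n i)⁻¹ * c)`, i.e. `LD (D * a1) c`, i.e.
  `LD a1 (D⁻¹ * c)`; similarly `LD b1 (D⁻¹ * c)`; so `LD m3 (D⁻¹ * c)`, `LD m c`. -/

namespace Pool.Agent.H70.KR

open Pool.Agent.H69.AMU

variable {n : ℕ}

private lemma LD_shift (x a g : BraidGroup n) : LD (x * a) g ↔ LD a (x⁻¹ * g) := by
  unfold LD
  rw [mul_inv_rev, mul_assoc]

private lemma exists_lcm_aux (F : KF n) (N : ℕ) : ∀ a b g : BraidGroup n, IsPos n a → IsPos n b →
    LD a g → LD b g → ln n g ≤ (N : ℤ) →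
    ∃ m, LD a m ∧ LD b m ∧ LD m g ∧ ∀ c, LD a c → LD b c → LD m c := by
  induction N with
  | zero =>
    intro a b g ha hb h1 h2 hN
    have hg : IsPos n g := h1.isPos ha
    have ea : a = 1 := by
      apply ha.eq_one
      have e1 := ha.ln_nonneg
      have e2 := h1.ln_le
      push_cast at hN
      omega
    subst ea
    exact ⟨b, LD_one.2 hb, LD.refl b, h2, fun c _ hc => hc⟩
  | succ N ih =>
    intro a b g ha hb h1 h2 hN
    have hg : IsPos n g := h1.isPos ha
    rcases ha.cases with ea | ⟨i, hi, a', ha', ea⟩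
    · subst ea
      exact ⟨b, LD_one.2 hb, LD.refl b, h2, fun c _ hc => hc⟩
    rcases hb.cases with eb | ⟨j, hj, b', hb', eb⟩
    · subst eb
      exact ⟨a, LD.refl a, LD_one.2 ha, h1, fun c hc _ => hc⟩
    subst ea
    subst eb
    have hag : LD a' ((gen n i)⁻¹ * g) := (LD_shift _ _ _).1 h1
    have hbg : LD b' ((gen n j)⁻¹ * g) := (LD_shift _ _ _).1 h2
    have hlni : ln n ((gen n i)⁻¹ * g) ≤ (N : ℤ) := by
      rw [ln_mul, ln_inv, ln_gen hi]
      push_cast at hN
      omega
    have hlnj : ln n ((gen n j)⁻¹ * g) ≤ (N : ℤ) := by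
      rw [ln_mul, ln_inv, ln_gen hj]
      push_cast at hN
      omega
    by_cases hij : i = j
    · subst hij
      obtain ⟨m', q1, q2, q3, q4⟩ := ih a' b' _ ha' hb' hag hbg hlni
      refine ⟨gen n i * m', (LD_mul_left _ _ _).2 q1, (LD_mul_left _ _ _).2 q2,
        (LD_shift _ _ _).2 q3, fun c hc1 hc2 => ?_⟩
      exact (LD_shift _ _ _).2 (q4 _ ((LD_shift _ _ _).1 hc1) ((LD_shift _ _ _).1 hc2))
    · obtain ⟨u, v, hu, hv, huv, hD⟩ := exists_lcm_gen F hi hj hij
      have hga : LD (gen n i) g := (LD_mul_right ha').trans h1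
      have hgb : LD (gen n j) g := (LD_mul_right hb').trans h2
      have hDg : LD (gen n i * u) g := hD g hg hga hgb
      have hDg' : LD (gen n j * v) g := huv ▸ hDg
      obtain ⟨m1, k1, k2, k3, k4⟩ := ih a' u _ ha' hu hag ((LD_shift _ _ _).1 hDg) hlni
      obtain ⟨m2, l1, l2, l3, l4⟩ := ih b' v _ hb' hv hbg ((LD_shift _ _ _).1 hDg') hlnj
      have e1 : gen n i * u * (u⁻¹ * m1) = gen n i * m1 := by
        rw [mul_assoc, mul_inv_cancel_left]
      have e2 : gen n i * u * (v⁻¹ * m2) = gen n j * m2 := by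
        rw [huv, mul_assoc, mul_inv_cancel_left]
      have pa : LD (u⁻¹ * m1) ((gen n i * u)⁻¹ * g) := by
        rw [← LD_shift, e1, LD_shift]
        exact k3
      have pb : LD (v⁻¹ * m2) ((gen n i * u)⁻¹ * g) := by
        rw [← LD_shift, e2, LD_shift]
        exact l3
      have hlnD : ln n ((gen n i * u)⁻¹ * g) ≤ (N : ℤ) := by
        have := hu.ln_nonneg
        rw [ln_mul, ln_inv, ln_mul, ln_gen hi]
        push_cast at hN
        omega
      obtain ⟨m3, n1, n2, n3, n4⟩ := ih _ _ _ k2 l2 pa pb hlnD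
      refine ⟨gen n i * u * m3, ?_, ?_, (LD_shift _ _ _).2 n3, ?_⟩
      · have t1 : LD (gen n i * a') (gen n i * m1) := (LD_mul_left _ _ _).2 k1
        have t2 : LD (gen n i * m1) (gen n i * u * m3) := by
          rw [← e1]
          exact (LD_mul_left _ _ _).2 n1
        exact t1.trans t2
      · have t1 : LD (gen n j * b') (gen n j * m2) := (LD_mul_left _ _ _).2 l1
        have t2 : LD (gen n j * m2) (gen n i * u * m3) := by
          rw [← e2]
          exact (LD_mul_left _ _ _).2 n2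
        exact t1.trans t2
      · intro c hc1 hc2
        have hc : IsPos n c := hc1.isPos ha
        have c1 : LD (gen n i) c := (LD_mul_right ha').trans hc1
        have c2 : LD (gen n j) c := (LD_mul_right hb').trans hc2
        have hDc : LD (gen n i * u) c := hD c hc c1 c2
        have hDc' : LD (gen n j * v) c := huv ▸ hDc
        have r1 : LD (gen n i * m1) c := (LD_shift _ _ _).2
          (k4 _ ((LD_shift _ _ _).1 hc1) ((LD_shift _ _ _).1 hDc))
        have r2 : LD (gen n j * m2) c := (LD_shift _ _ _).2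
          (l4 _ ((LD_shift _ _ _).1 hc2) ((LD_shift _ _ _).1 hDc'))
        rw [← e1] at r1
        rw [← e2] at r2
        exact (LD_shift _ _ _).2 (n4 _ ((LD_shift _ _ _).1 r1) ((LD_shift _ _ _).1 r2))

theorem exists_lcm (F : KF n) {a b g : BraidGroup n} (ha : IsPos n a) (hb : IsPos n b)
    (h1 : LD a g) (h2 : LD b g) :
    ∃ m, LD a m ∧ LD b m ∧ LD m g ∧ ∀ c, LD a c → LD b c → LD m c := by
  refine exists_lcm_aux F (ln n g).toNat a b g ha hb h1 h2 ?_
  exact Int.self_le_toNat _

end Pool.Agent.H70.KR
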