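import Mathlib
import Pool.Agent.H70.KR.LemJ
import Pool.Agent.H70.KR.Gar

set_option autoImplicit false

/-! # Greatest common left divisors

PROOF of `exists_gcd_pos`. The set of the numbers `(ln n d).toNat` of the positive common divisors
`d` of `X` is nonempty (`d = 1`) and bounded by `ln n x0`, `x0` in `X` (`LD.ln_le`). Take a positive
common divisor `d` with `ln n d` maximal. Let `d'` be a positive common divisor. By `exists_lcm`
(with `g = x0`) there is `m` with `LD d m`, `LD d' m` and `LD m c` for all common multiples `c` of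
`d`, `d'`; so `m` (positive by `LD.isPos`) is a common divisor of `X`; `ln n m ≤ ln n d` by
maximality; `d⁻¹ * m` is positive of length `≤ 0`, so it is `1` (`IsPos.eq_one`) and `m = d`,
so `LD d' d`.
PROOF of `exists_glb`. Let `X0 = {x | z * x ∈ X}` (nonempty, all its elements are positive: `z⁻¹ x`).
Let `d0` be its gcd from `exists_gcd_pos` (greatest among the POSITIVE common divisors). Claim:
`LD d d0` for every `d : BraidGroup n` with `LD d x` for all `x ∈ X0`. By `exists_th_pow` there is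
`k` with `e = th n ^ k * d` positive. Let `X1 = {th n ^ k * x | x ∈ X0}` (positive elements) and `c`
its gcd (`exists_gcd_pos`). `th n ^ k` (positive) divides all elements of `X1`, so `LD (th n ^ k) c`,
`c = th n ^ k * f` with `f` positive; `LD c (th n ^ k * x)` gives `LD f x` for `x ∈ X0`
(`LD_mul_left`), so `LD f d0`. `e` divides all elements of `X1` (`LD_mul_left`), so `LD e c`, i.e.
`LD (th n ^ k * d) (th n ^ k * f)`, `LD d f`, hence `LD d d0`. Then `a = z * d0` has the required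
properties: for `x ∈ X`, `z⁻¹ x ∈ X0`, `LD d0 (z⁻¹ x)`, `LD (z d0) x`; if `LD d x` for all
`x ∈ X` then `LD (z⁻¹ d) y` for all `y ∈ X0`, so `LD (z⁻¹ d) d0`, `LD d (z d0)`. -/

namespace Pool.Agent.H70.KR

open Pool.Agent.H69.AMU

variable {n : ℕ}

theorem exists_gcd_pos (F : KF n) (X : Set (BraidGroup n)) (hX : X.Nonempty)
    (hp : ∀ x ∈ X, IsPos n x) :
    ∃ d, IsPos n d ∧ (∀ x ∈ X, LD d x) ∧ ∀ d', IsPos n d' → (∀ x ∈ X, LD d' x) → LD d' d := by
  obtain ⟨x0, hx0⟩ := hX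
  let S : Set ℕ := {N | ∃ d, IsPos n d ∧ (∀ x ∈ X, LD d x) ∧ (ln n d).toNat = N}
  have hS : S.Nonempty := ⟨_, 1, isPos_one n, fun x hx => LD_one.2 (hp x hx), rfl⟩
  have hb : BddAbove S := by
    refine ⟨(ln n x0).toNat, ?_⟩
    rintro N ⟨d, -, hd, rfl⟩
    exact Int.toNat_le_toNat (hd x0 hx0).ln_le
  obtain ⟨d, hd, hdX, hdN⟩ := Nat.sSup_mem hS hb
  refine ⟨d, hd, hdX, ?_⟩
  intro d' hd' hdX'
  obtain ⟨m, hm1, hm2, -, hm4⟩ := exists_lcm F hd hd' (hdX x0 hx0) (hdX' x0 hx0)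
  have hmp : IsPos n m := hm1.isPos hd
  have hmX : ∀ x ∈ X, LD m x := fun x hx => hm4 x (hdX x hx) (hdX' x hx)
  have h1 : (ln n m).toNat ≤ sSup S := le_csSup hb ⟨m, hmp, hmX, rfl⟩
  rw [← hdN] at h1
  have h2 := hmp.ln_nonneg
  have h3 := hd.ln_nonneg
  have h4 := hm1.ln_le
  have h5 : (d⁻¹ * m) = 1 := IsPos.eq_one hm1 (by
    rw [ln_mul, ln_inv]
    omega)
  have h6 : d = m := inv_mul_eq_one.1 h5
  rw [h6]
  exact hm2


private theorem th_pow_pos (k : ℕ) : IsPos n (th n ^ k) := by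
  induction k with
  | zero => simpa using isPos_one n
  | succ k ih =>
    rw [pow_succ]
    exact ih.mul isPos_th

theorem exists_glb (F : KF n) (X : Set (BraidGroup n)) (hX : X.Nonempty) (z : BraidGroup n)
    (hz : ∀ x ∈ X, LD z x) :
    ∃ a, (∀ x ∈ X, LD a x) ∧ ∀ d, (∀ x ∈ X, LD d x) → LD d a := by
  let X0 : Set (BraidGroup n) := {x | z * x ∈ X}
  have hX0 : X0.Nonempty := by
    obtain ⟨x, hx⟩ := hX
    refine ⟨z⁻¹ * x, ?_⟩
    show z * (z⁻¹ * x) ∈ X
    rwa [mul_inv_cancel_left]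
  have hp0 : ∀ x ∈ X0, IsPos n x := by
    intro x hx
    have h1 := hz (z * x) hx
    unfold LD at h1
    rwa [inv_mul_cancel_left] at h1
  obtain ⟨d0, hd0, hd0X, hd0m⟩ := exists_gcd_pos F X0 hX0 hp0
  have key : ∀ d : BraidGroup n, (∀ x ∈ X0, LD d x) → LD d d0 := by
    intro d hd
    obtain ⟨k, hk⟩ := exists_th_pow d
    let X1 : Set (BraidGroup n) := {y | ∃ x ∈ X0, y = th n ^ k * x}
    have hX1 : X1.Nonempty := by
      obtain ⟨x, hx⟩ := hX0
      exact ⟨_, x, hx, rfl⟩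
    have hp1 : ∀ y ∈ X1, IsPos n y := by
      rintro y ⟨x, hx, rfl⟩
      exact (th_pow_pos k).mul (hp0 x hx)
    obtain ⟨c, hc, hcX, hcm⟩ := exists_gcd_pos F X1 hX1 hp1
    have h1 : LD (th n ^ k) c := hcm _ (th_pow_pos k) (by
      rintro y ⟨x, hx, rfl⟩
      exact LD_mul_right (hp0 x hx))
    obtain ⟨f, hf, rfl⟩ := LD_iff.1 h1
    have h2 : LD f d0 := hd0m f hf fun x hx =>
      (LD_mul_left (th n ^ k) f x).1 (hcX _ ⟨x, hx, rfl⟩)
    have h3 : LD (th n ^ k * d) (th n ^ k * f) := hcm _ hk (by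
      rintro y ⟨x, hx, rfl⟩
      exact (LD_mul_left _ _ _).2 (hd x hx))
    exact ((LD_mul_left _ _ _).1 h3).trans h2
  refine ⟨z * d0, ?_, ?_⟩
  · intro x hx
    have h1 : z⁻¹ * x ∈ X0 := by
      show z * (z⁻¹ * x) ∈ X
      rwa [mul_inv_cancel_left]
    have h2 := (LD_mul_left z d0 (z⁻¹ * x)).2 (hd0X _ h1)
    rwa [mul_inv_cancel_left] at h2
  · intro d hd
    have h1 : LD (z⁻¹ * d) d0 := key _ fun y hy => by
      have h2 := hd (z * y) hy
      rw [← LD_mul_left z, mul_inv_cancel_left]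
      exact h2
    rw [← LD_mul_left z, mul_inv_cancel_left] at h1
    exact h1

end Pool.Agent.H70.KR
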