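import Mathlib
import Pool.Agent.H70.KR.Def
import Pool.Agent.H70.KR.Val

set_option autoImplicit false

/-! # Krammer's representation with `t = T`, `s = 1/2` and its matrices at `t = 0` -/

namespace Pool.Agent.H70.KR

open Pool.Agent.H69.AMU LaurentPolynomial

/-- Krammer's representation over the Laurent polynomials in `t = T` with `s = 1/2`. -/
structure KRep (n : ℕ) where
  /-- the representation -/
  rho : BraidGroup n →* (Matrix (Pr n) (Pr n) (LaurentPolynomial ℝ))ˣ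
  hrho : ∀ k, k < n - 1 →
    ((rho (gen n k) : (Matrix (Pr n) (Pr n) (LaurentPolynomial ℝ))ˣ) :
      Matrix (Pr n) (Pr n) (LaurentPolynomial ℝ)) = kr (T 1) (C (1 / 2)) n k

/-- The row `(i, j)` has valuation at least `e` (vacuous if `i < j < n` fails). -/
def VR {n : ℕ} (e : ℤ) (M : Matrix (Pr n) (Pr n) (LaurentPolynomial ℝ)) (i j : ℕ) : Prop :=
  ∀ (h : i < j) (hj : j < n) (q : Pr n), VG e (M ⟨(⟨i, by omega⟩, ⟨j, hj⟩), h⟩ q)

lemma VR.mono {n : ℕ} {e f : ℤ} {M : Matrix (Pr n) (Pr n) (LaurentPolynomial ℝ)} {i j : ℕ}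
    (h : VR f M i j) (hef : e ≤ f) : VR e M i j := fun h1 h2 q => (h h1 h2 q).mono hef

lemma VM_iff_VR {n : ℕ} {e : ℤ} {M : Matrix (Pr n) (Pr n) (LaurentPolynomial ℝ)} :
    VM e M ↔ ∀ i j, VR e M i j := by
  constructor
  · intro h i j h1 h2 q
    exact h _ q
  · rintro h ⟨⟨⟨i, hi⟩, ⟨j, hj⟩⟩, hp⟩ q
    exact h i j hp hj q

/-- The matrices of the generators have no negative powers of `T`, and the constant terms are the
matrices at `t = 0`. -/
lemma kr_coeff (n k : ℕ) (p q : Pr n) :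
    VG 0 (kr (T 1 : LaurentPolynomial ℝ) (C (1 / 2)) n k p q) ∧
      (kr (T 1 : LaurentPolynomial ℝ) (C (1 / 2)) n k p q).coeff 0 = kr (0 : ℝ) (1 / 2) n k p q := by
  have c0 : ∀ a : ℝ, (C a : LaurentPolynomial ℝ).coeff 0 = a := by
    intro a
    rw [← single_eq_C, AddMonoidAlgebra.coeff_single, Finsupp.single_apply, if_pos rfl]
  have t1 : VG 1 (T 1 : LaurentPolynomial ℝ) := VG_T 1
  have tm : ∀ x : LaurentPolynomial ℝ, VG 0 x → VG 0 (T 1 * x) ∧ (T 1 * x).coeff 0 = 0 := by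
    intro x hx
    have h := t1.mul hx
    exact ⟨h.mono (by norm_num), h 0 (by norm_num)⟩
  have e1 : (1 : LaurentPolynomial ℝ) = C 1 := by rw [map_one]
  have hs1 : (1 : LaurentPolynomial ℝ) - C (1 / 2) = C (1 - 1 / 2) := by rw [map_sub, map_one]
  have hs2 : (C (1 / 2) : LaurentPolynomial ℝ) - 1 = C (1 / 2 - 1) := by rw [map_sub, map_one]
  have add0 : ∀ {x y : LaurentPolynomial ℝ} {a b : ℝ}, (VG 0 x ∧ x.coeff 0 = a) →
      (VG 0 y ∧ y.coeff 0 = b) → VG 0 (x + y) ∧ (x + y).coeff 0 = a + b := by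
    intro x y a b hx hy
    refine ⟨hx.1.add hy.1, ?_⟩
    rw [AddMonoidAlgebra.coeff_add, Finsupp.add_apply, hx.2, hy.2]
  have ite0 : ∀ (P : Prop) [Decidable P] {x : LaurentPolynomial ℝ} {a : ℝ},
      (VG 0 x ∧ x.coeff 0 = a) → VG 0 (if P then x else 0) ∧
        (if P then x else 0).coeff 0 = if P then a else 0 := by
    intro P _ x a hx
    split_ifs
    · exact hx
    · exact ⟨VG.zero 0, by simp⟩
  have g1 : VG 0 (1 : LaurentPolynomial ℝ) ∧ (1 : LaurentPolynomial ℝ).coeff 0 = 1 :=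
    ⟨VG_one, by rw [e1, c0]⟩
  have gC : ∀ a : ℝ, VG 0 (C a : LaurentPolynomial ℝ) ∧ (C a : LaurentPolynomial ℝ).coeff 0 = a :=
    fun a => ⟨VG_C a, c0 a⟩
  have gT : ∀ a b : ℝ, VG 0 (T 1 * C a * C b : LaurentPolynomial ℝ) ∧
      (T 1 * C a * C b : LaurentPolynomial ℝ).coeff 0 = 0 * a * b := by
    intro a b
    rw [mul_assoc, ← map_mul]
    obtain ⟨h1, h2⟩ := tm _ (VG_C (a * b))
    exact ⟨h1, by rw [h2]; ring⟩
  have gT2 : ∀ a : ℝ, VG 0 (T 1 * C a : LaurentPolynomial ℝ) ∧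
      (T 1 * C a : LaurentPolynomial ℝ).coeff 0 = 0 * a := by
    intro a
    obtain ⟨h1, h2⟩ := tm _ (VG_C a)
    exact ⟨h1, by rw [h2]; ring⟩
  have itee : ∀ (P : Prop) [Decidable P] {x y : LaurentPolynomial ℝ} {a b : ℝ},
      (VG 0 x ∧ x.coeff 0 = a) → (VG 0 y ∧ y.coeff 0 = b) → VG 0 (if P then x else y) ∧
        (if P then x else y).coeff 0 = if P then a else b := by
    intro P _ x y a b hx hy
    split_ifs
    · exact hx
    · exact hy
  unfold kr
  simp only [hs1, hs2, ← map_pow]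
  exact itee _ (ite0 _ (gT2 _)) (itee _ (add0 (ite0 _ (gC _)) (ite0 _ (gC _)))
    (itee _ (add0 (ite0 _ g1) (ite0 _ (gT _ _))) (itee _ (add0 (ite0 _ (gC _)) (ite0 _ (gT _ _)))
    (itee _ (add0 (ite0 _ g1) (ite0 _ (gC _))) (itee _ (add0 (ite0 _ g1) (ite0 _ (gT _ _)))
    (ite0 _ g1))))))

namespace KRep

variable {n : ℕ} (R : KRep n)

/-- The matrix of a braid. -/
noncomputable def M (g : BraidGroup n) : Matrix (Pr n) (Pr n) (LaurentPolynomial ℝ) :=
  ((R.rho g : (Matrix (Pr n) (Pr n) (LaurentPolynomial ℝ))ˣ) :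
    Matrix (Pr n) (Pr n) (LaurentPolynomial ℝ))

lemma M_one : R.M 1 = 1 := by
  unfold M
  rw [map_one, Units.val_one]

lemma M_mul (g h : BraidGroup n) : R.M (g * h) = R.M g * R.M h := by
  unfold M
  rw [map_mul, Units.val_mul]

lemma M_pow (g : BraidGroup n) (m : ℕ) : R.M (g ^ m) = R.M g ^ m := by
  unfold M
  rw [map_pow, Units.val_pow_eq_pow_val]

lemma M_gen {k : ℕ} (hk : k < n - 1) : R.M (gen n k) = kr (T 1) (C (1 / 2)) n k := R.hrho k hk

lemma M_inv_mul (g : BraidGroup n) : R.M g⁻¹ * R.M g = 1 := by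
  rw [← M_mul, inv_mul_cancel, M_one]

lemma M_mul_inv (g : BraidGroup n) : R.M g * R.M g⁻¹ = 1 := by
  rw [← M_mul, mul_inv_cancel, M_one]

lemma vm_gen {k : ℕ} (hk : k < n - 1) : VM 0 (R.M (gen n k)) := by
  rw [M_gen R hk]
  exact fun p q => (kr_coeff n k p q).1

lemma vm_pos {g : BraidGroup n} (hg : IsPos n g) : VM 0 (R.M g) := by
  refine IsPos.induct (C := fun g => VM 0 (R.M g)) ?_ ?_ hg
  · rw [M_one]
    exact VM_one
  · intro k hk g _ ih
    rw [M_mul]
    simpa using (R.vm_gen hk).mul ih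

/-- The matrices at `t = 0`. -/
noncomputable def toKF : KF n where
  P g := fun p q => (R.M g p q).coeff 0
  one := by
    ext p q
    rw [M_one, Matrix.one_apply, Matrix.one_apply]
    split_ifs
    · rw [← map_one (C : ℝ →+* LaurentPolynomial ℝ), ← single_eq_C, AddMonoidAlgebra.coeff_single,
        Finsupp.single_apply, if_pos rfl]
    · simp
  mul_gen := by
    intro g hg k hk
    ext p q
    have e1 : (R.M (gen n k * g) p q).coeff 0
        = ∑ r, (kr (T 1 : LaurentPolynomial ℝ) (C (1 / 2)) n k p r * R.M g r q).coeff 0 := by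
      rw [M_mul, M_gen R hk, Matrix.mul_apply, AddMonoidAlgebra.coeff_sum, Finsupp.finsetSum_apply]
    have e2 : (kr (0 : ℝ) (1 / 2) n k *
        (show Matrix (Pr n) (Pr n) ℝ from fun p q => (R.M g p q).coeff 0))
        p q = ∑ r, kr (0 : ℝ) (1 / 2) n k p r * (R.M g r q).coeff 0 := Matrix.mul_apply
    rw [e2]
    refine e1.trans ?_
    apply Finset.sum_congr rfl
    intro r _
    have h := (kr_coeff n k p r).1.coeff_mul (R.vm_pos hg r q)
    rw [zero_add] at h
    rw [h, (kr_coeff n k p r).2]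

/-- Zero rows are rows of positive valuation. -/
lemma zr_iff {g : BraidGroup n} (hg : IsPos n g) (i j : ℕ) :
    R.toKF.ZR g i j ↔ VR 1 (R.M g) i j := by
  constructor
  · intro h h1 h2 q a ha
    rcases lt_or_eq_of_le (show a ≤ 0 by omega) with h3 | h3
    · exact R.vm_pos hg _ q a h3
    · subst h3
      exact h h1 h2 q
  · intro h h1 h2 q
    exact h h1 h2 q 0 (by norm_num)

end KRep

end Pool.Agent.H70.KR
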