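import Mathlib
import Pool.Agent.H70.KR.Rho

set_option autoImplicit false

/-! # Valuations of rows when a generator is removed

`M = kr (T 1) (C (1/2)) n k * M'`; let `row(i,j)`, `row'(i,j)` be the rows of `M`, `M'`. Insert
`t = T`, `s = 1/2` in the definition of `kr` (rows and columns indexed by pairs):
* `row(i,k) = 1/2 row'(i,k) + row'(i,k+1)` for `i < k`;
* `row(i,k+1) = 1/2 row'(i,k)` for `i < k`;
* `row(k,j) = row'(k+1,j)` for `k + 1 < j`;
* `row(k+1,j) = 1/2 row'(k,j) + 1/2 row'(k+1,j)` for `k + 1 < j`;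
* `row(k,k+1) = T/4 row'(k,k+1) + ∑ over q ≠ (k,k+1) of (T * real constant) row'(q)`;
* `row(p) = row'(p)` for all other `p`.
PROOF. First prove these formulas entrywise (`Matrix.mul_apply`, `Finset.sum_eq_single`,
`Finset.sum_eq_add` ...; for `row(k,k+1)` separate the column `(k,k+1)` with
`Finset.sum_erase_add` or `Finset.add_sum_erase` and note that every other entry of this row of `kr`
has valuation at least `1`: it is `0` or `T * C _` or `T * C _ * C _`). Then:
`vr_left'`: `row'(i,k) = 2 row(i,k+1)` (multiplication by a real constant `C a` keeps the valuation: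
`(VG_C a).mul`). `vr_left`: `row'(i,k+1) = row(i,k) - 1/2 row'(i,k)`. `vr_right`:
`row'(k+1,j) = row(k,j)`. `vr_right'`: `row'(k,j) = 2 row(k+1,j) - row'(k+1,j)`. `vr_other`: equal
rows. `vr_self`: by the previous statements all rows `row'(q)`, `q ≠ (k,k+1)`, have valuation at
least `e`, so `T/4 row'(k,k+1) = row(k,k+1) - ∑ ...` has valuation at least `e + 1`; multiply by
`4 T⁻¹ = C 4 * T (-1)` (`VG_T`, `VG_C`, `VG.mul`; `T (-1) * T 1 = 1`). -/

namespace Pool.Agent.H70.KR

open LaurentPolynomial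

section Rows

variable {A : Type*} [CommRing A] {t s : A} {n k : ℕ}

/-- the pair `(i, j)` -/
private def pr (i j : ℕ) (h : i < j) (hj : j < n) : Pr n := ⟨(⟨i, by omega⟩, ⟨j, hj⟩), h⟩

private theorem pr_eq {i j a b : ℕ} {h : i < j} {hj : j < n} {h' : a < b} {hb : b < n} :
    (pr i j h hj = pr a b h' hb) ↔ (i = a ∧ j = b) := by
  unfold pr
  simp only [Subtype.mk.injEq, Prod.mk.injEq, Fin.mk.injEq]

private theorem kr_pr {i j a b : ℕ} {h : i < j} {hj : j < n} {h' : a < b} {hb : b < n} :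
    kr t s n k (pr i j h hj) (pr a b h' hb) =
  (if a = k ∧ b = k + 1 then
    (if i = k ∧ j = k + 1 then t * s ^ 2 else 0)
  else if a < k ∧ b = k then
    (if i = a ∧ j = k then 1 - s else 0) +
      (if i = a ∧ j = k + 1 then s else 0)
  else if a < k ∧ b = k + 1 then
    (if i = a ∧ j = k then 1 else 0) +
      (if i = k ∧ j = k + 1 then t * s ^ (k - a + 1) * (s - 1) else 0)
  else if a = k ∧ k + 1 < b then
    (if i = k + 1 ∧ j = b then s else 0) +
      (if i = k ∧ j = k + 1 then t * s * (s - 1) else 0)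
  else if a = k + 1 ∧ k + 1 < b then
    (if i = k ∧ j = b then 1 else 0) +
      (if i = k + 1 ∧ j = b then 1 - s else 0)
  else if a < k ∧ k + 1 < b then
    (if i = a ∧ j = b then 1 else 0) +
      (if i = k ∧ j = k + 1 then t * s ^ (k - a) * (s - 1) ^ 2 else 0)
  else if i = a ∧ j = b then 1 else 0) := by
  have e := pr_eq (h := h) (hj := hj) (h' := h') (hb := hb)
  unfold kr
  by_cases hh : i = a ∧ j = b
  · rw [if_pos (c := pr i j h hj = pr a b h' hb) (e.2 hh)]
    simp only [hh]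
    rfl
  · rw [if_neg (c := pr i j h hj = pr a b h' hb) (fun h5 => hh (e.1 h5))]
    simp only [if_neg hh]
    rfl

private theorem row_ik {i : ℕ} (hi : i < k) (hk : k < n) (hk1 : k + 1 < n) (q : Pr n) :
    kr t s n k (pr i k hi hk) q = (if q = pr i k hi hk then 1 - s else 0) +
      (if q = pr i (k + 1) (Nat.lt_succ_of_lt hi) hk1 then 1 else 0) := by
  obtain ⟨⟨⟨a, ha⟩, ⟨b, hb⟩⟩, hab⟩ := q
  have hab' : a < b := hab
  show kr t s n k (pr i k hi hk) (pr a b hab' hb) =
    (if pr a b hab' hb = pr i k hi hk then 1 - s else 0) +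
      (if pr a b hab' hb = pr i (k + 1) (by omega) hk1 then 1 else 0)
  rw [kr_pr, if_congr pr_eq rfl rfl, if_congr pr_eq rfl rfl]
  split_ifs <;> first | (exfalso; omega) | rfl | simp

private theorem row_ik1 {i : ℕ} (hi : i < k) (hk : k < n) (hk1 : k + 1 < n) (q : Pr n) :
    kr t s n k (pr i (k + 1) (by omega) hk1) q = (if q = pr i k hi hk then s else 0) := by
  obtain ⟨⟨⟨a, ha⟩, ⟨b, hb⟩⟩, hab⟩ := q
  have hab' : a < b := hab
  show kr t s n k (pr i (k + 1) (by omega) hk1) (pr a b hab' hb) =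
    (if pr a b hab' hb = pr i k hi hk then s else 0)
  rw [kr_pr, if_congr pr_eq rfl rfl]
  split_ifs <;> first | (exfalso; omega) | rfl | simp

private theorem row_kj {j : ℕ} (hj : k + 1 < j) (hjn : j < n) (q : Pr n) :
    kr t s n k (pr k j (by omega) hjn) q = (if q = pr (k + 1) j hj hjn then 1 else 0) := by
  obtain ⟨⟨⟨a, ha⟩, ⟨b, hb⟩⟩, hab⟩ := q
  have hab' : a < b := hab
  show kr t s n k (pr k j (by omega) hjn) (pr a b hab' hb) =
    (if pr a b hab' hb = pr (k + 1) j hj hjn then 1 else 0)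
  rw [kr_pr, if_congr pr_eq rfl rfl]
  split_ifs <;> first | (exfalso; omega) | rfl | simp

private theorem row_k1j {j : ℕ} (hj : k + 1 < j) (hjn : j < n) (q : Pr n) :
    kr t s n k (pr (k + 1) j hj hjn) q = (if q = pr k j (by omega) hjn then s else 0) +
      (if q = pr (k + 1) j hj hjn then 1 - s else 0) := by
  obtain ⟨⟨⟨a, ha⟩, ⟨b, hb⟩⟩, hab⟩ := q
  have hab' : a < b := hab
  show kr t s n k (pr (k + 1) j hj hjn) (pr a b hab' hb) =
    (if pr a b hab' hb = pr k j (by omega) hjn then s else 0) +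
      (if pr a b hab' hb = pr (k + 1) j hj hjn then 1 - s else 0)
  rw [kr_pr, if_congr pr_eq rfl rfl, if_congr pr_eq rfl rfl]
  split_ifs <;> first | (exfalso; omega) | rfl | simp

private theorem row_oth {i j : ℕ} (hij : i < j) (hjn : j < n) (h1 : i ≠ k) (h2 : i ≠ k + 1)
    (h3 : j ≠ k) (h4 : j ≠ k + 1) (q : Pr n) :
    kr t s n k (pr i j hij hjn) q = (if q = pr i j hij hjn then 1 else 0) := by
  obtain ⟨⟨⟨a, ha⟩, ⟨b, hb⟩⟩, hab⟩ := q
  have hab' : a < b := hab
  show kr t s n k (pr i j hij hjn) (pr a b hab' hb) =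
    (if pr a b hab' hb = pr i j hij hjn then 1 else 0)
  rw [kr_pr, if_congr pr_eq rfl rfl]
  split_ifs <;> first | (exfalso; omega) | rfl | simp

private theorem row_kk1 (hk1 : k + 1 < n) :
    kr t s n k (pr k (k + 1) (by omega) hk1) (pr k (k + 1) (by omega) hk1) = t * s ^ 2 := by
  rw [kr_pr, if_pos ⟨rfl, rfl⟩, if_pos ⟨rfl, rfl⟩]

private theorem mul_one {M' : Matrix (Pr n) (Pr n) A} {p q1 : Pr n} {a : A}
    (h : ∀ q, kr t s n k p q = if q = q1 then a else 0) (r : Pr n) :
    (kr t s n k * M') p r = a * M' q1 r := by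
  rw [Matrix.mul_apply]
  simp only [h, ite_mul, zero_mul]
  rw [Finset.sum_ite_eq' Finset.univ q1, if_pos (Finset.mem_univ _)]

private theorem mul_two {M' : Matrix (Pr n) (Pr n) A} {p q1 q2 : Pr n} {a b : A}
    (h : ∀ q, kr t s n k p q = (if q = q1 then a else 0) + (if q = q2 then b else 0)) (r : Pr n) :
    (kr t s n k * M') p r = a * M' q1 r + b * M' q2 r := by
  rw [Matrix.mul_apply]
  simp only [h, add_mul, ite_mul, zero_mul]
  rw [Finset.sum_add_distrib, Finset.sum_ite_eq' Finset.univ q1, Finset.sum_ite_eq' Finset.univ q2,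
    if_pos (Finset.mem_univ _), if_pos (Finset.mem_univ _)]

private theorem mul_ik {M' : Matrix (Pr n) (Pr n) A} {i : ℕ} (hi : i < k) (hk : k < n)
    (hk1 : k + 1 < n) (r : Pr n) : (kr t s n k * M') (pr i k hi hk) r =
      (1 - s) * M' (pr i k hi hk) r + M' (pr i (k + 1) (by omega) hk1) r := by
  have h := mul_two (M' := M') (row_ik (t := t) (s := s) hi hk hk1) r
  rwa [_root_.one_mul] at h

private theorem mul_ik1 {M' : Matrix (Pr n) (Pr n) A} {i : ℕ} (hi : i < k) (hk : k < n)
    (hk1 : k + 1 < n) (r : Pr n) : (kr t s n k * M') (pr i (k + 1) (by omega) hk1) r =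
      s * M' (pr i k hi hk) r := mul_one (row_ik1 hi hk hk1) r

private theorem mul_kj {M' : Matrix (Pr n) (Pr n) A} {j : ℕ} (hj : k + 1 < j) (hjn : j < n)
    (r : Pr n) : (kr t s n k * M') (pr k j (by omega) hjn) r = M' (pr (k + 1) j hj hjn) r := by
  rw [mul_one (row_kj hj hjn) r, _root_.one_mul]

private theorem mul_k1j {M' : Matrix (Pr n) (Pr n) A} {j : ℕ} (hj : k + 1 < j) (hjn : j < n)
    (r : Pr n) : (kr t s n k * M') (pr (k + 1) j hj hjn) r =
      s * M' (pr k j (by omega) hjn) r + (1 - s) * M' (pr (k + 1) j hj hjn) r :=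
  mul_two (row_k1j hj hjn) r

private theorem mul_oth {M' : Matrix (Pr n) (Pr n) A} {i j : ℕ} (hij : i < j) (hjn : j < n)
    (h1 : i ≠ k) (h2 : i ≠ k + 1) (h3 : j ≠ k) (h4 : j ≠ k + 1) (r : Pr n) :
    (kr t s n k * M') (pr i j hij hjn) r = M' (pr i j hij hjn) r := by
  rw [mul_one (row_oth hij hjn h1 h2 h3 h4) r, _root_.one_mul]

end Rows

private theorem vg_C_mul {e : ℤ} {x : LaurentPolynomial ℝ} (a : ℝ) (h : VG e x) :
    VG e (C a * x) := by
  have := (VG_C a).mul h
  rwa [zero_add] at this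

private theorem one_sub_half : (1 : LaurentPolynomial ℝ) - C (1 / 2) = C (1 / 2) := by
  rw [← map_one (C : ℝ →+* LaurentPolynomial ℝ), ← map_sub]
  norm_num

private theorem two_half (x : LaurentPolynomial ℝ) : C 2 * (C (1 / 2) * x) = x := by
  rw [← mul_assoc, ← map_mul]
  norm_num

variable {n k : ℕ} {M M' : Matrix (Pr n) (Pr n) (LaurentPolynomial ℝ)} {e : ℤ}

theorem vr_left' (hk : k < n - 1) (hM : M = kr (T 1) (C (1 / 2)) n k * M') {i : ℕ} (hi : i < k)
    (h : VR e M i (k + 1)) : VR e M' i k := by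
  intro h1 h2 q
  have hk1 : k + 1 < n := by omega
  have h3 : M (pr i (k + 1) (by omega) hk1) q = C (1 / 2) * M' (pr i k hi h2) q := by
    rw [hM]
    exact mul_ik1 hi h2 hk1 q
  have h4 : M' (pr i k hi h2) q = C 2 * M (pr i (k + 1) (by omega) hk1) q := by
    rw [h3, two_half]
  show VG e (M' (pr i k hi h2) q)
  rw [h4]
  exact vg_C_mul 2 (h (by omega) hk1 q)

theorem vr_left (hk : k < n - 1) (hM : M = kr (T 1) (C (1 / 2)) n k * M') {i : ℕ} (hi : i < k)
    (h1 : VR e M i k) (h2 : VR e M i (k + 1)) : VR e M' i (k + 1) := by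
  intro h3 hk1 q
  have hk0 : k < n := by omega
  have h5 : M (pr i k hi hk0) q = C (1 / 2) * M' (pr i k hi hk0) q +
      M' (pr i (k + 1) (by omega) hk1) q := by
    rw [hM, mul_ik hi hk0 hk1 q, one_sub_half]
  have h6 : M' (pr i (k + 1) (by omega) hk1) q =
      M (pr i k hi hk0) q - C (1 / 2) * M' (pr i k hi hk0) q := by
    rw [h5]
    ring
  show VG e (M' (pr i (k + 1) (by omega) hk1) q)
  rw [h6]
  exact (h1 hi hk0 q).sub (vg_C_mul _ (vr_left' hk hM hi h2 hi hk0 q))

theorem vr_right (hk : k < n - 1) (hM : M = kr (T 1) (C (1 / 2)) n k * M') {j : ℕ} (hj : k + 1 < j)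
    (h : VR e M k j) : VR e M' (k + 1) j := by
  intro h1 hjn q
  have h2 : M (pr k j (by omega) hjn) q = M' (pr (k + 1) j hj hjn) q := by
    rw [hM, mul_kj hj hjn q]
  show VG e (M' (pr (k + 1) j hj hjn) q)
  rw [← h2]
  exact h (by omega) hjn q

theorem vr_right' (hk : k < n - 1) (hM : M = kr (T 1) (C (1 / 2)) n k * M') {j : ℕ}
    (hj : k + 1 < j) (h1 : VR e M k j) (h2 : VR e M (k + 1) j) : VR e M' k j := by
  intro h3 hjn q
  have h5 : M (pr (k + 1) j hj hjn) q = C (1 / 2) * M' (pr k j (by omega) hjn) q +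
      C (1 / 2) * M' (pr (k + 1) j hj hjn) q := by
    rw [hM, mul_k1j hj hjn q, one_sub_half]
  have h6 : M' (pr k j (by omega) hjn) q =
      C 2 * M (pr (k + 1) j hj hjn) q - M' (pr (k + 1) j hj hjn) q := by
    rw [h5, mul_add, two_half, two_half]
    ring
  show VG e (M' (pr k j (by omega) hjn) q)
  rw [h6]
  exact (vg_C_mul 2 (h2 hj hjn q)).sub (vr_right hk hM hj h1 hj hjn q)

theorem vr_other (hk : k < n - 1) (hM : M = kr (T 1) (C (1 / 2)) n k * M') {i j : ℕ} (h1 : i ≠ k)
    (h2 : i ≠ k + 1) (h3 : j ≠ k) (h4 : j ≠ k + 1) (h : VR e M i j) : VR e M' i j := by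
  intro hij hjn q
  have h5 : M (pr i j hij hjn) q = M' (pr i j hij hjn) q := by
    rw [hM, mul_oth hij hjn h1 h2 h3 h4 q]
  show VG e (M' (pr i j hij hjn) q)
  rw [← h5]
  exact h hij hjn q

private theorem vg_T_mul {x : LaurentPolynomial ℝ} (h : VG e x) : VG (e + 1) (T 1 * x) := by
  have := (VG_T 1).mul h
  rwa [add_comm] at this

private theorem row_kk1_map {A B : Type*} [CommRing A] [CommRing B] (f : A →+* B) (t : B) (s : A)
    (hk1 : k + 1 < n) (q : Pr n) :
    kr t (f s) n k (pr k (k + 1) (by omega) hk1) q =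
      t * f (kr 1 s n k (pr k (k + 1) (by omega) hk1) q) := by
  obtain ⟨⟨⟨a, ha⟩, ⟨b, hb⟩⟩, hab⟩ := q
  have hab' : a < b := hab
  show kr t (f s) n k (pr k (k + 1) (by omega) hk1) (pr a b hab' hb) =
      t * f (kr 1 s n k (pr k (k + 1) (by omega) hk1) (pr a b hab' hb))
  rw [kr_pr, kr_pr]
  split_ifs <;> first | (exfalso; omega) |
    (simp only [map_zero, map_mul, map_sub, map_one, map_pow, zero_add, mul_zero, one_mul,
      mul_assoc])

private theorem row_kk1_vg (hk1 : k + 1 < n) (q : Pr n) :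
    VG 1 (kr (T 1 : LaurentPolynomial ℝ) (C (1 / 2)) n k (pr k (k + 1) (by omega) hk1) q) := by
  rw [row_kk1_map]
  have h := (VG_T 1).mul (VG_C (kr 1 (1 / 2) n k (pr k (k + 1) (by omega) hk1) q))
  rwa [add_zero] at h

theorem vr_self (hk : k < n - 1) (hM : M = kr (T 1) (C (1 / 2)) n k * M')
    (h : ∀ i j, VR e M i j) (h' : VR (e + 1) M k (k + 1)) : VR e M' k (k + 1) := by
  classical
  intro h1 hk1 q
  let p : Pr n := pr k (k + 1) (by omega) hk1
  have hother : ∀ r : Pr n, r ≠ p → VG e (M' r q) := by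
    rintro ⟨⟨⟨i, hi⟩, ⟨j, hj⟩⟩, hp⟩ hne
    have hij : i < j := hp
    have hne' : ¬ (i = k ∧ j = k + 1) := by
      rintro ⟨rfl, rfl⟩
      exact hne rfl
    have hall : VR e M' i j := by
      by_cases c1 : i = k
      · subst c1
        exact vr_right' hk hM (by omega) (h _ _) (h _ _)
      · by_cases c2 : i = k + 1
        · subst c2
          exact vr_right hk hM hij (h _ _)
        · by_cases c3 : j = k
          · subst c3
            exact vr_left' hk hM hij (h _ _)
          · by_cases c4 : j = k + 1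
            · subst c4
              exact vr_left hk hM (by omega) (h _ _) (h _ _)
            · exact vr_other hk hM c1 c2 c3 c4 (h _ _)
    exact hall hij hj q
  have hsum : M p q = kr (T 1) (C (1 / 2)) n k p p * M' p q +
      ∑ r ∈ Finset.univ.erase p, kr (T 1) (C (1 / 2)) n k p r * M' r q := by
    rw [hM, Matrix.mul_apply]
    exact (Finset.add_sum_erase _ _ (Finset.mem_univ p)).symm
  have hrest : VG (e + 1) (∑ r ∈ Finset.univ.erase p,
      kr (T 1 : LaurentPolynomial ℝ) (C (1 / 2)) n k p r * M' r q) := by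
    refine VG.sum ?_
    intro r hr
    have h2 := (row_kk1_vg hk1 r).mul (hother r (Finset.ne_of_mem_erase hr))
    rwa [add_comm] at h2
  have hpp : kr (T 1 : LaurentPolynomial ℝ) (C (1 / 2)) n k p p = T 1 * C (1 / 2) ^ 2 :=
    row_kk1 hk1
  have hx : VG (e + 1) (T 1 * C (1 / 2) ^ 2 * M' p q) := by
    have h3 : T 1 * C (1 / 2) ^ 2 * M' p q = M p q - ∑ r ∈ Finset.univ.erase p,
        kr (T 1 : LaurentPolynomial ℝ) (C (1 / 2)) n k p r * M' r q := by
      rw [hsum, hpp]
      ring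
    rw [h3]
    exact (h' (by omega) hk1 q).sub hrest
  have h4 : M' p q = C 4 * (T (-1) * (T 1 * C (1 / 2) ^ 2 * M' p q)) := by
    have h5 : (T (-1) * T 1 : LaurentPolynomial ℝ) = 1 := by
      rw [← T_add, neg_add_cancel, T_zero]
    have h6 : (C 4 * C (1 / 2) ^ 2 : LaurentPolynomial ℝ) = 1 := by
      rw [← map_pow, ← map_mul]
      norm_num
    have h7 : C 4 * (T (-1) * (T 1 * C (1 / 2) ^ 2 * M' p q)) =
        (T (-1) * T 1) * (C 4 * C (1 / 2) ^ 2) * M' p q := by ring
    rw [h7, h5, h6, one_mul, one_mul]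
  show VG e (M' p q)
  rw [h4]
  refine vg_C_mul 4 ?_
  have h8 := (VG_T (-1)).mul hx
  have h9 : (-1 : ℤ) + (e + 1) = e := by ring
  rwa [h9] at h8

/-- All rows at once: one removal keeps the valuation if the row `(k, k + 1)` is one better. -/
theorem vr_all (hk : k < n - 1) (hM : M = kr (T 1) (C (1 / 2)) n k * M')
    (h : ∀ i j, VR e M i j) (h' : VR (e + 1) M k (k + 1)) (i j : ℕ) : VR e M' i j := by
  by_cases h1 : i = k
  · subst h1
    rcases lt_trichotomy j (i + 1) with h2 | h2 | h2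
    · intro h3 _ _
      omega
    · subst h2
      exact vr_self hk hM h h'
    · exact vr_right' hk hM h2 (h _ _) (h _ _)
  · by_cases h2 : i = k + 1
    · subst h2
      by_cases h3 : k + 1 < j
      · exact vr_right hk hM h3 (h _ _)
      · intro h4 _ _
        omega
    · by_cases h3 : j = k
      · subst h3
        by_cases h4 : i < j
        · exact vr_left' hk hM h4 (h _ _)
        · intro h5 _ _
          omega
      · by_cases h4 : j = k + 1
        · subst h4
          by_cases h5 : i < k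
          · exact vr_left hk hM h5 (h _ _) (h _ _)
          · intro h6 _ _
            omega
        · exact vr_other hk hM h1 h2 h3 h4 (h _ _)

end Pool.Agent.H70.KR
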