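import Mathlib
import Pool.Agent.H70.KR.RowV
import Pool.Agent.H70.KR.LemK

set_option autoImplicit false

/-! # Division by the half twist loses at most one power of `T`

`VT e m r M`: all rows have valuation at least `e`, and the rows `(p, q)` with `m + 1 < q` or
`q = r` have valuation at least `e + 1`.
PROOF of `vt_step` (`M = kr (T 1) (C (1/2)) n k * M'`, `k = r - 1`, `1 ≤ r ≤ m + 1 ≤ n - 1`). All
rows of `M'` have valuation at least `e` by `vr_all` (the row `(k, k+1) = (r-1, r)` of `M` has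
valuation `≥ e + 1`). Rows of `M'` with valuation `≥ e + 1`: row `(p, r-1) = (p, k)`, `p < k`: by
`vr_left'` from the row `(p, k+1) = (p, r)` of `M`. Row `(p, q)` with `m + 1 < q` (so `k + 1 < q`):
for `p = k` `vr_right'`, for `p = k + 1` `vr_right`, else `vr_other`, all from rows of `M` with the
same second index.
PROOF of `peel_desc` (induction on `r`): `g` positive with `VT e m r (R.M g)`, `r ≤ m + 1`. If
`r = 0` take `g' = g`. Otherwise the row `(r-1, r)` of `R.M g` has valuation `≥ e + 1 ≥ 1` (here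
`0 ≤ e`), so it is a zero row of `R.toKF.P g` (`R.zr_iff`), so `gen n (r-1)` divides `g`
(`lemma_K`): `g = gen n (r-1) * g1`, `R.M g = kr .. n (r-1) * R.M g1` (`M_mul`, `M_gen`),
`vt_step`, induction for `g1` and `r - 1`; `desc (gen n) 0 r = gen n (r-1) * desc (gen n) 0 (r-1)`
(`desc_succ'`).
PROOF of `peel_Dl` (induction on `m ≤ n - 1`): `g = Dl n m * g'` with `VT e m (m+1) (R.M g')`.
`m = 0`: all rows (`q ≥ 1`) have valuation `≥ e + 1`, `g' = g`. Step: `peel_desc` with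
`r = m + 1` (needs `m + 1 ≤ n - 1`), then `VT e m 0` implies `VT e (m+1) (m+2)` (rows with
`m + 2 < q` or `q = m + 2`, i.e. `m + 1 < q`).
`peelV`: `m = n - 1`. -/

namespace Pool.Agent.H70.KR

open Pool.Agent.H69.AMU LaurentPolynomial

variable {n : ℕ}

/-- All rows have valuation at least `e`, the rows `(p, q)` with `m + 1 < q` or `q = r` even at
least `e + 1`. -/
def VT (e : ℤ) (m r : ℕ) (M : Matrix (Pr n) (Pr n) (LaurentPolynomial ℝ)) : Prop :=
  (∀ i j, VR e M i j) ∧ ∀ p q : ℕ, (m + 1 < q ∨ q = r) → VR (e + 1) M p q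

theorem vt_step {e : ℤ} {m r : ℕ} (hr : 1 ≤ r) (hrm : r ≤ m + 1) (hm : m + 1 ≤ n - 1)
    {M M' : Matrix (Pr n) (Pr n) (LaurentPolynomial ℝ)}
    (hM : M = kr (T 1) (C (1 / 2)) n (r - 1) * M') (h : VT e m r M) : VT e m (r - 1) M' := by
  obtain ⟨k, rfl⟩ : ∃ k, r = k + 1 := ⟨r - 1, by omega⟩
  rw [Nat.add_sub_cancel] at hM ⊢
  have hk : k < n - 1 := by omega
  refine ⟨vr_all hk hM h.1 (h.2 k (k + 1) (Or.inr rfl)), fun p q hq => ?_⟩
  by_cases hq' : m + 1 < q
  · by_cases hp : p = k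
    · subst hp
      exact vr_right' hk hM (by omega) (h.2 p q (Or.inl hq')) (h.2 (p + 1) q (Or.inl hq'))
    · by_cases hp' : p = k + 1
      · subst hp'
        exact vr_right hk hM (by omega) (h.2 k q (Or.inl hq'))
      · exact vr_other hk hM hp hp' (by omega) (by omega) (h.2 p q (Or.inl hq'))
  · have hqk : q = k := by
      rcases hq with hq | hq
      · exact absurd hq hq'
      · exact hq
    subst hqk
    by_cases hp : p < q
    · exact vr_left' hk hM hp (h.2 p (q + 1) (Or.inr rfl))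
    · intro h'
      exact absurd h' hp

theorem peel_desc (R : KRep n) {e : ℤ} (he : 0 ≤ e) {m r : ℕ} (hrm : r ≤ m + 1)
    (hm : m + 1 ≤ n - 1) {g : BraidGroup n} (hg : IsPos n g) (h : VT e m r (R.M g)) :
    ∃ g', IsPos n g' ∧ g = desc (gen n) 0 r * g' ∧ VT e m 0 (R.M g') := by
  induction r generalizing g with
  | zero => exact ⟨g, hg, by rw [desc, one_mul], h⟩
  | succ r ih =>
    have hr : r < n - 1 := by omega
    have h1 : VR 1 (R.M g) r (r + 1) := (h.2 r (r + 1) (Or.inr rfl)).mono (by omega)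
    obtain ⟨g1, hg1, rfl⟩ := LD_iff.1 (lemma_K R.toKF hg hr ((R.zr_iff hg r (r + 1)).2 h1))
    have h2 : R.M (gen n r * g1) = kr (T 1) (C (1 / 2)) n (r + 1 - 1) * R.M g1 := by
      rw [R.M_mul, R.M_gen hr, Nat.add_sub_cancel]
    have h3 : VT e m r (R.M g1) := vt_step (r := r + 1) (by omega) hrm hm h2 h
    obtain ⟨g', hg', rfl, h4⟩ := ih (by omega) hg1 h3
    refine ⟨g', hg', ?_, h4⟩
    rw [desc_succ', Nat.zero_add, mul_assoc]

theorem peel_Dl (R : KRep n) {e : ℤ} (he : 0 ≤ e) {m : ℕ} (hm : m ≤ n - 1) {g : BraidGroup n}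
    (hg : IsPos n g) (h : VM (e + 1) (R.M g)) :
    ∃ g', IsPos n g' ∧ g = Dl n m * g' ∧ VT e m (m + 1) (R.M g') := by
  induction m with
  | zero =>
    have h1 := VM_iff_VR.1 h
    exact ⟨g, hg, by rw [Dl, one_mul], fun i j => (h1 i j).mono (by omega), fun p q _ => h1 p q⟩
  | succ m ih =>
    obtain ⟨g', hg', rfl, h1⟩ := ih (by omega)
    obtain ⟨g'', hg'', rfl, h2⟩ := peel_desc R he (r := m + 1) le_rfl hm hg' h1
    refine ⟨g'', hg'', by rw [Dl, mul_assoc], h2.1, fun p q hq => h2.2 p q (Or.inl ?_)⟩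
    omega

theorem peelV (R : KRep n) {e : ℤ} (he : 0 ≤ e) {g : BraidGroup n} (hg : IsPos n g)
    (h : VM (e + 1) (R.M g)) : ∃ g', IsPos n g' ∧ g = Delta n * g' ∧ VM e (R.M g') := by
  obtain ⟨g', h1, h2, h3⟩ := peel_Dl R he le_rfl hg h
  exact ⟨g', h1, h2, VM_iff_VR.2 h3.1⟩

end Pool.Agent.H70.KR
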