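import Mathlib
import Pool.Agent.H70.KR.Div
import Pool.Agent.H70.KR.Row

set_option autoImplicit false

/-! # All rows of the half twist are zero

`F.TT m r g`: all rows `(p, q)` with `m + 1 < q` or `q = r` of `F.P g` are zero.
PROOF of `tt_step` (`1 ≤ r ≤ m + 1 ≤ n - 1`, `k = r - 1`): rows of `gen n k * g`.
* row `(p, r)`, `p < r`: if `p = k` it is the row `(k, k+1)`: `zr_self`. If `p < k` it is the row
  `(p, k+1)`: `zr_left'`, and the row `(p, k) = (p, r-1)` of `g` is zero by `TT m (r-1) g`.
* row `(p, q)` with `m + 1 < q` (so `k + 1 < q`): for `p = k` use `zr_right`, for `p = k + 1`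
  `zr_right'`, otherwise `zr_other` (`q ≠ k`, `q ≠ k + 1`); all needed rows of `g` have the same
  second index `q`, so they are zero. (If `p < q < n` fails the statement is vacuous: unfold `ZR`.)
`tt_desc`: `desc (gen n) 0 r * g` for `r ≤ m + 1`, induction on `r` with
`desc_succ' : desc s k (d+1) = s (k+d) * desc s k d` and `tt_step`.
`zr_Delta`: for `m ≤ n - 1` let `rest m = (Dl n m)⁻¹ * Delta n`. Claim: `rest m` is positive and
`F.TT m (m+1) (rest m)`. Downward induction (write `m = n - 1 - d`, induction on `d`): for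
`m = n - 1` `rest = 1` and rows with `q ≥ n` are vacuous. Step from `m + 1` to `m`:
`rest m = desc (gen n) 0 (m+1) * rest (m+1)`; `F.TT (m+1) (m+2) (rest (m+1))` implies
`F.TT m 0 (rest (m+1))` (rows with `m + 1 < q` or `q = 0`; the latter are vacuous), and `tt_desc`
with `r = m + 1`. For `m = 0`: `rest 0 = Delta n` and `TT 0 1` covers all `q ≥ 1`. (For `n ≤ 1`
everything is vacuous.) -/

namespace Pool.Agent.H70.KR

open Pool.Agent.H69.AMU

variable {n : ℕ}

/-- All rows `(p, q)` with `m + 1 < q` or `q = r` are zero. -/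
def KF.TT (F : KF n) (m r : ℕ) (g : BraidGroup n) : Prop :=
  ∀ p q : ℕ, (m + 1 < q ∨ q = r) → F.ZR g p q

theorem tt_step (F : KF n) {g : BraidGroup n} (hg : IsPos n g) {m r : ℕ} (hr : 1 ≤ r)
    (hrm : r ≤ m + 1) (hm : m + 1 ≤ n - 1) (h : F.TT m (r - 1) g) :
    F.TT m r (gen n (r - 1) * g) := by
  obtain ⟨k, rfl⟩ : ∃ k, r = k + 1 := ⟨r - 1, by omega⟩
  rw [Nat.add_sub_cancel] at h ⊢
  have hk : k < n - 1 := by omega
  intro p q hq
  by_cases hpq : p < q
  · by_cases hqk : q = k + 1
    · subst hqk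
      by_cases hp : p = k
      · subst hp
        exact F.zr_self hg hk
      · exact (F.zr_left' hg hk (by omega)).2 (h p k (Or.inr rfl))
    · have hq' : m + 1 < q := by
        rcases hq with hq | hq
        · exact hq
        · exact absurd hq hqk
      by_cases hp : p = k
      · subst hp
        exact (F.zr_right hg hk (by omega)).2 (h (p + 1) q (Or.inl hq'))
      · by_cases hp' : p = k + 1
        · subst hp'
          exact (F.zr_right' hg hk (by omega)).2 ⟨h k q (Or.inl hq'), h (k + 1) q (Or.inl hq')⟩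
        · exact (F.zr_other hg hk hp hp' (by omega) hqk).2 (h p q (Or.inl hq'))
  · intro h'
    exact absurd h' hpq

theorem tt_desc (F : KF n) {g : BraidGroup n} (hg : IsPos n g) {m r : ℕ} (hrm : r ≤ m + 1)
    (hm : m + 1 ≤ n - 1) (h : F.TT m 0 g) : F.TT m r (desc (gen n) 0 r * g) := by
  induction r with
  | zero =>
    rw [desc, one_mul]
    exact h
  | succ r ih =>
    rw [desc_succ', Nat.zero_add, mul_assoc]
    have h1 : IsPos n (desc (gen n) 0 r * g) := (isPos_desc (by omega)).mul hg
    exact tt_step F h1 (r := r + 1) (by omega) hrm hm (ih (by omega))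

private lemma rest_aux (F : KF n) : ∀ d : ℕ, d ≤ n - 1 →
    IsPos n ((Dl n (n - 1 - d))⁻¹ * Delta n) ∧
      F.TT (n - 1 - d) (n - 1 - d + 1) ((Dl n (n - 1 - d))⁻¹ * Delta n) := by
  intro d
  induction d with
  | zero =>
    intro _
    rw [Nat.sub_zero]
    have e : (Dl n (n - 1))⁻¹ * Delta n = 1 := inv_mul_cancel _
    rw [e]
    refine ⟨isPos_one n, fun p q hq h1 hj => ?_⟩
    exfalso
    omega
  | succ d ih =>
    intro hd
    obtain ⟨h1, h2⟩ := ih (by omega)
    obtain ⟨m, hm⟩ : ∃ m, m = n - 1 - (d + 1) := ⟨_, rfl⟩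
    have hm1 : n - 1 - d = m + 1 := by omega
    rw [hm1] at h1 h2
    rw [← hm]
    have e : (Dl n m)⁻¹ * Delta n = desc (gen n) 0 (m + 1) * ((Dl n (m + 1))⁻¹ * Delta n) := by
      rw [Dl]
      group
    rw [e]
    have h3 : F.TT m 0 ((Dl n (m + 1))⁻¹ * Delta n) := by
      intro p q hq
      rcases hq with hq | hq
      · by_cases hq' : q = m + 1 + 1
        · exact h2 p q (Or.inr hq')
        · exact h2 p q (Or.inl (by omega))
      · subst hq
        intro h' _
        exact absurd h' (Nat.not_lt_zero _)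
    exact ⟨(isPos_desc (by omega)).mul h1, tt_desc F h1 le_rfl (by omega) h3⟩

theorem zr_Delta (F : KF n) (i j : ℕ) : F.ZR (Delta n) i j := by
  obtain ⟨-, h⟩ := rest_aux F (n - 1) le_rfl
  rw [Nat.sub_self] at h
  have e : (Dl n 0)⁻¹ * Delta n = Delta n := by
    rw [Dl, inv_one, one_mul]
  rw [e] at h
  by_cases hj : j = 0
  · subst hj
    intro h' _
    exact absurd h' (Nat.not_lt_zero _)
  · exact h i j (by omega)

end Pool.Agent.H70.KR
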