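import Mathlib
import Pool.Agent.H70.KR.PeelV
import Pool.Agent.H70.KR.Std
import Pool.Agent.H70.KR.Gar

set_option autoImplicit false

/-! # Positivity from the valuation

PROOF. `vm_Delta`: `Delta n` is positive (`isPos_Delta`), all its rows are zero rows (`zr_Delta`
for `R.toKF`), so `VM 1 (R.M (Delta n))` (`R.zr_iff`, `VM_iff_VR`). `vm_th_pow`:
`R.M (th n) = R.M (Delta n) * R.M (Delta n)` has valuation at least `2` (`VM.mul`), powers by
induction. `dvd_of_val` (induction on `e : ℕ`): `e = 0` trivial; `e + 1`: `peelV` gives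
`g = Delta n * g'`, `VM e (R.M g')`, `g'` positive, so `g' = Delta n ^ e * g''`.
`pos_of_val`: by `exists_th_pow' h` choose `k : ℕ` with `th n ^ k * h` positive and `0 ≤ k + e`
(`k ≥ m`, `k ≥ |e|`). `R.M (th n ^ k * h)` has valuation at least `2 k + 2 e` (`vm_th_pow`,
`VM.mul`), so by `dvd_of_val` with the natural number `2 (k + e)`
`th n ^ k * h = Delta n ^ (2 (k + e)) * g'' = th n ^ (k + e) * g''` with `g''` positive
(`th n = Delta n * Delta n`), so `th n ^ (-e) * h = g''`. -/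

namespace Pool.Agent.H70.KR

open Pool.Agent.H69.AMU LaurentPolynomial

variable {n : ℕ}

theorem vm_Delta (R : KRep n) : VM 1 (R.M (Delta n)) :=
  VM_iff_VR.2 fun i j => (R.zr_iff isPos_Delta i j).1 (zr_Delta R.toKF i j)

theorem vm_th_pow (R : KRep n) (k : ℕ) : VM (2 * k) (R.M (th n ^ k)) := by
  have h1 : VM 2 (R.M (th n)) := by
    rw [th, R.M_mul]
    exact (vm_Delta R).mul (vm_Delta R)
  induction k with
  | zero =>
    rw [pow_zero, R.M_one]
    exact VM_one
  | succ k ih =>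
    rw [pow_succ, R.M_mul]
    have h2 := ih.mul h1
    have h3 : (2 * ((k + 1 : ℕ) : ℤ)) = 2 * (k : ℤ) + 2 := by push_cast; ring
    rw [h3]
    exact h2

theorem dvd_of_val (R : KRep n) (e : ℕ) {g : BraidGroup n} (hg : IsPos n g)
    (h : VM e (R.M g)) : ∃ g', IsPos n g' ∧ g = Delta n ^ e * g' := by
  induction e generalizing g with
  | zero => exact ⟨g, hg, by rw [pow_zero, one_mul]⟩
  | succ e ih =>
    have h1 : VM ((e : ℤ) + 1) (R.M g) := by
      have h2 : ((e + 1 : ℕ) : ℤ) = (e : ℤ) + 1 := by push_cast; ring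
      rw [h2] at h
      exact h
    obtain ⟨g', hg', he, hv⟩ := peelV R (Int.natCast_nonneg e) hg h1
    obtain ⟨g'', hg'', he'⟩ := ih hg' hv
    exact ⟨g'', hg'', by rw [he, he', pow_succ', mul_assoc]⟩

theorem pos_of_val (R : KRep n) (h : BraidGroup n) (e : ℤ) (hV : VM (2 * e) (R.M h)) :
    IsPos n (th n ^ (-e) * h) := by
  obtain ⟨m, hm⟩ := exists_th_pow' h
  obtain ⟨k, hk⟩ : ∃ k : ℕ, k = m + e.natAbs := ⟨_, rfl⟩
  have hke : 0 ≤ (k : ℤ) + e := by omega
  obtain ⟨E, hE⟩ := Int.eq_ofNat_of_zero_le hke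
  have hg := hm k (by omega)
  have hV' : VM ((2 * E : ℕ) : ℤ) (R.M (th n ^ k * h)) := by
    rw [R.M_mul]
    have h1 := (vm_th_pow R k).mul hV
    have h2 : ((2 * E : ℕ) : ℤ) = 2 * (k : ℤ) + 2 * e := by push_cast; linarith
    rw [h2]
    exact h1
  obtain ⟨g, hgp, hge⟩ := dvd_of_val R (2 * E) hg hV'
  have h3 : Delta n ^ (2 * E) = th n ^ E := by
    rw [pow_mul, pow_two, th]
  rw [h3] at hge
  have h4 : th n ^ (-e) * h = g := by
    have h5 : h = (th n ^ k)⁻¹ * (th n ^ E * g) := by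
      rw [← hge, inv_mul_cancel_left]
    rw [h5, ← zpow_natCast, ← zpow_natCast, ← zpow_neg, ← mul_assoc, ← mul_assoc, ← zpow_add,
      ← zpow_add]
    have h6 : -e + -(k : ℤ) + (E : ℤ) = 0 := by
      have h7 : (E : ℤ) = (k : ℤ) + e := hE.symm
      rw [h7]
      ring
    rw [h6, zpow_zero, one_mul]
  rw [h4]
  exact hgp

end Pool.Agent.H70.KR
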