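import Mathlib
import Pool.Agent.H70.KR.Def
import Pool.Agent.H61.AMU.Cross

set_option autoImplicit false

/-! # Krammer's matrices at `s = 1` and the crossing numbers

At `s = 1` the matrix `kr t 1 n k` is monomial: `x_(k,k+1) -> t x_(k,k+1)`, and every other basis
vector goes to the basis vector of the pair with `k`, `k + 1` exchanged.
`crossing n b` (H61/AMU/Cross.lean): matrix of crossing numbers, `crossing_mul`, `crossing_gen`,
`crossing_one`, `pairMat`.
PROOF of `crossing_symm` and `crossing_diag`: both properties hold for `1`, for the generators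
(`pairMat_symm`; the diagonal entries of `pairMat n p q` with `p ≠ q` vanish), for products
(`crossing_mul`) and for inverses (`crossing (b * b⁻¹) = 0` and `crossing_mul` give
`crossing n b⁻¹` = minus a submatrix of `crossing n b`); `closure_gen` with
`Subgroup.closure_induction`.
PROOF of `trace_sOne`. For `g : BraidGroup n` let `Mon g : Matrix (Pr n) (Pr n) R` be the matrix with
entry at `(p, q)` equal to `t ^ (crossing n g p.1.1 p.1.2)` if the unordered pair
`{π q.1.1, π q.1.2}` (`π = permHom n g`) is the unordered pair `{p.1.1, p.1.2}`, and `0` otherwise.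
(1) `Mon (g * h) = Mon g * Mon h`: in the sum over `r` of `Mon g p r * Mon h r q` only the pair `r`
with `{r} = {π_h q}` contributes, it is unique and exists (`π_h q.1.1 ≠ π_h q.1.2`, order them), and
`crossing n (g * h) p.1 p.2 = crossing n g p.1 p.2 + crossing n h (π_g⁻¹ p.1) (π_g⁻¹ p.2)`
(`crossing_mul`), where `{π_g⁻¹ p.1, π_g⁻¹ p.2} = {r}` and `crossing n h` is symmetric
(`crossing_symm`). (2) `Mon (gen n k) = kr t 1 n k` (case analysis; `permHom_gen`, `crossing_gen`).
(3) `Mon 1 = 1`. So `Mon` defines a homomorphism to the units (inverse `Mon g⁻¹`) which agrees with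
`rho` on the generators, hence everywhere (`closure_gen` / `PresentedGroup.ext`; or prove
`(rho g).val = Mon g` by `Subgroup.closure_induction`). For pure `b` (`permHom n b = 1`) `Mon b` is
diagonal with entries `t ^ crossing n b p.1.1 p.1.2`. -/

namespace Pool.Agent.H70.KR

open Pool.Agent.H69.AMU Pool.Agent.H61.AMU

variable {n : ℕ}


private theorem crossing_both (b : BraidGroup n) :
    (∀ p q : Fin n, crossing n b p q = crossing n b q p) ∧ ∀ p : Fin n, crossing n b p p = 0 := by
  have hb : b ∈ Subgroup.closure (gen n '' Set.Iio (n - 1)) := by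
    rw [closure_gen]
    exact Subgroup.mem_top b
  induction hb using Subgroup.closure_induction with
  | mem x hx =>
    obtain ⟨i, hi, rfl⟩ := hx
    have hi' : i < n - 1 := hi
    rw [crossing_gen n hi']
    constructor
    · intro p q
      simp only [pairMat, Matrix.add_apply, Matrix.single_apply]
      rw [add_comm]
      congr 1
      · exact if_congr and_comm rfl rfl
      · exact if_congr and_comm rfl rfl
    · intro p
      simp only [pairMat, Matrix.add_apply, Matrix.single_apply]
      rw [if_neg, if_neg]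
      · simp
      · rintro ⟨h1, h2⟩
        have := congrArg Fin.val (h1.trans h2.symm)
        simp at this
      · rintro ⟨h1, h2⟩
        have := congrArg Fin.val (h1.trans h2.symm)
        simp at this
  | one =>
    rw [crossing_one]
    exact ⟨fun _ _ => rfl, fun _ => rfl⟩
  | mul x y _ _ hx hy =>
    rw [crossing_mul]
    refine ⟨fun p q => ?_, fun p => ?_⟩
    · rw [Matrix.add_apply, Matrix.add_apply, Matrix.submatrix_apply, Matrix.submatrix_apply, hx.1,
        hy.1]
    · rw [Matrix.add_apply, Matrix.submatrix_apply, hx.2, hy.2, add_zero]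
  | inv x _ hx =>
    have h1 := crossing_mul n x⁻¹ x
    rw [inv_mul_cancel, crossing_one] at h1
    have h2 : ∀ p q, crossing n x⁻¹ p q =
        -crossing n x ((permHom n x⁻¹).symm p) ((permHom n x⁻¹).symm q) := by
      intro p q
      have h3 := congrFun (congrFun h1 p) q
      rw [Matrix.add_apply, Matrix.submatrix_apply, Matrix.zero_apply] at h3
      omega
    refine ⟨fun p q => ?_, fun p => ?_⟩
    · rw [h2, h2, hx.1]
    · rw [h2, hx.2, neg_zero]

theorem crossing_symm (b : BraidGroup n) (p q : Fin n) : crossing n b p q = crossing n b q p := by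
  exact (crossing_both b).1 p q

theorem crossing_diag (b : BraidGroup n) (p : Fin n) : crossing n b p p = 0 := by
  exact (crossing_both b).2 p


/-- the pair `q` is moved to the pair `p` -/
private def Sm (π : Equiv.Perm (Fin n)) (p q : Pr n) : Prop :=
  (π q.1.1 = p.1.1 ∧ π q.1.2 = p.1.2) ∨ (π q.1.1 = p.1.2 ∧ π q.1.2 = p.1.1)

open Classical in
/-- the monomial matrix -/
private noncomputable def Mon {R : Type} [CommRing R] (t : Rˣ) (g : BraidGroup n) :
    Matrix (Pr n) (Pr n) R := fun p q =>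
  if Sm (permHom n g) p q then ((t ^ (crossing n g p.1.1 p.1.2) : Rˣ) : R) else 0

private theorem Sm_ex (π : Equiv.Perm (Fin n)) (q : Pr n) : ∃ r, Sm π r q := by
  have h : π q.1.1 ≠ π q.1.2 := fun h => (ne_of_lt q.2) (π.injective h)
  rcases lt_or_gt_of_ne h with h1 | h1
  · exact ⟨⟨(π q.1.1, π q.1.2), h1⟩, Or.inl ⟨rfl, rfl⟩⟩
  · exact ⟨⟨(π q.1.2, π q.1.1), h1⟩, Or.inr ⟨rfl, rfl⟩⟩

private theorem Sm_uniq {π : Equiv.Perm (Fin n)} {q r r' : Pr n} (h : Sm π r q) (h' : Sm π r' q) :
    r = r' := by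
  have h1 := r.2
  have h2 := r'.2
  apply Subtype.ext
  apply Prod.ext
  · rcases h with ⟨a, b⟩ | ⟨a, b⟩ <;> rcases h' with ⟨c, d⟩ | ⟨c, d⟩
    · rw [← a, ← c]
    · exfalso
      rw [← a, ← b] at h1
      rw [← c, ← d] at h2
      exact absurd h1 (not_lt.2 h2.le)
    · exfalso
      rw [← a, ← b] at h1
      rw [← c, ← d] at h2
      exact absurd h1 (not_lt.2 h2.le)
    · rw [← b, ← d]
  · rcases h with ⟨a, b⟩ | ⟨a, b⟩ <;> rcases h' with ⟨c, d⟩ | ⟨c, d⟩
    · rw [← b, ← d]
    · exfalso
      rw [← a, ← b] at h1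
      rw [← c, ← d] at h2
      exact absurd h1 (not_lt.2 h2.le)
    · exfalso
      rw [← a, ← b] at h1
      rw [← c, ← d] at h2
      exact absurd h1 (not_lt.2 h2.le)
    · rw [← a, ← c]

private theorem Sm_mul {π σ : Equiv.Perm (Fin n)} {p q r : Pr n} (h : Sm σ r q) :
    Sm (π * σ) p q ↔ Sm π p r := by
  unfold Sm at *
  rw [Equiv.Perm.mul_apply, Equiv.Perm.mul_apply]
  rcases h with ⟨a, b⟩ | ⟨a, b⟩
  · rw [a, b]
  · rw [a, b]
    tauto

private theorem Mon_mul {R : Type} [CommRing R] (t : Rˣ) (g h : BraidGroup n) :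
    Mon t (g * h) = Mon t g * Mon t h := by
  classical
  ext p q
  rw [Matrix.mul_apply]
  obtain ⟨r, hr⟩ := Sm_ex (permHom n h) q
  rw [Finset.sum_eq_single r]
  · unfold Mon
    rw [map_mul, if_pos hr]
    by_cases hp : Sm (permHom n g) p r
    · rw [if_pos hp, if_pos ((Sm_mul hr).2 hp), ← Units.val_mul, ← zpow_add, crossing_mul,
        Matrix.add_apply, Matrix.submatrix_apply]
      congr 3
      rcases hp with ⟨a, b⟩ | ⟨a, b⟩
      · rw [← a, ← b, Equiv.symm_apply_apply, Equiv.symm_apply_apply]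
      · rw [← a, ← b, Equiv.symm_apply_apply, Equiv.symm_apply_apply, crossing_symm]
    · rw [if_neg hp, if_neg (fun h0 => hp ((Sm_mul hr).1 h0)), zero_mul]
  · intro r' _ hr'
    have : ¬ Sm (permHom n h) r' q := fun h0 => hr' (Sm_uniq h0 hr)
    unfold Mon
    rw [if_neg this, mul_zero]
  · intro h0
    exact absurd (Finset.mem_univ _) h0

private theorem Mon_one {R : Type} [CommRing R] (t : Rˣ) : Mon t (1 : BraidGroup n) = 1 := by
  classical
  ext p q
  unfold Mon
  rw [map_one, crossing_one, Matrix.one_apply]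
  by_cases hpq : p = q
  · subst hpq
    have hSm : Sm (1 : Equiv.Perm (Fin n)) p p := Or.inl ⟨rfl, rfl⟩
    rw [if_pos rfl, if_pos hSm, Matrix.zero_apply]
    simp
  · rw [if_neg hpq, if_neg]
    intro h
    exact hpq (Sm_uniq h (Or.inl ⟨rfl, rfl⟩))

private theorem Mon_gen {R : Type} [CommRing R] (t : Rˣ) {k : ℕ} (hk : k < n - 1) :
    Mon t (gen n k) = kr (t : R) 1 n k := by
  classical
  ext p q
  unfold Mon
  rw [permHom_gen hk, crossing_gen n hk]
  obtain ⟨⟨⟨a, ha⟩, ⟨b, hb⟩⟩, hab⟩ := p
  obtain ⟨⟨⟨c, hc⟩, ⟨d, hd⟩⟩, hcd⟩ := q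
  have hab' : a < b := hab
  have hcd' : c < d := hcd
  have e1 : (t ^ (pairMat n ⟨k, by omega⟩ ⟨k + 1, by omega⟩ ⟨a, ha⟩ ⟨b, hb⟩) : Rˣ) =
      if a = k ∧ b = k + 1 then t else 1 := by
    simp only [pairMat, Matrix.add_apply, Matrix.single_apply, Fin.mk.injEq]
    by_cases h1 : a = k ∧ b = k + 1
    · rw [if_pos h1, if_pos ⟨h1.1.symm, h1.2.symm⟩, if_neg (by omega)]
      simp
    · rw [if_neg h1, if_neg (by omega), if_neg (by omega)]
      simp
  have e2 : Sm (Equiv.swap (⟨k, by omega⟩ : Fin n) ⟨k + 1, by omega⟩)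
      (⟨(⟨a, ha⟩, ⟨b, hb⟩), hab⟩ : Pr n) ⟨(⟨c, hc⟩, ⟨d, hd⟩), hcd⟩ ↔
      ((if c = k then k + 1 else if c = k + 1 then k else c) = a ∧
        (if d = k then k + 1 else if d = k + 1 then k else d) = b) ∨
      ((if c = k then k + 1 else if c = k + 1 then k else c) = b ∧
        (if d = k then k + 1 else if d = k + 1 then k else d) = a) := by
    unfold Sm
    simp only [Equiv.swap_apply_def, Fin.ext_iff, apply_ite Fin.val]
  simp only [e2]
  rw [e1]
  unfold kr
  simp only [one_pow, sub_self, mul_one, mul_zero, ite_self, zero_add, add_zero, Subtype.mk.injEq,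
    Prod.mk.injEq, Fin.mk.injEq, ne_eq, OfNat.ofNat_ne_zero, not_false_eq_true, zero_pow]
  split_ifs <;> first | rfl | (exfalso; omega) | simp

theorem trace_sOne {R : Type} [CommRing R] (t : Rˣ)
    (rho : BraidGroup n →* (Matrix (Pr n) (Pr n) R)ˣ)
    (hrho : ∀ k, k < n - 1 → ((rho (gen n k) : (Matrix (Pr n) (Pr n) R)ˣ) :
      Matrix (Pr n) (Pr n) R) = kr (t : R) 1 n k)
    {b : BraidGroup n} (hb : b ∈ pureBraid n) :
    ((rho b : (Matrix (Pr n) (Pr n) R)ˣ) : Matrix (Pr n) (Pr n) R).trace
      = ∑ p : Pr n, ((t ^ (crossing n b p.1.1 p.1.2) : Rˣ) : R) := by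
  classical
  let M : BraidGroup n →* Matrix (Pr n) (Pr n) R :=
    { toFun := Mon t
      map_one' := Mon_one t
      map_mul' := Mon_mul t }
  have h1 : rho = M.toHomUnits := by
    have hset : Set.EqOn rho M.toHomUnits (gen n '' Set.Iio (n - 1)) := by
      rintro x ⟨k, hk, rfl⟩
      apply Units.ext
      rw [hrho k hk, MonoidHom.coe_toHomUnits]
      exact (Mon_gen t hk).symm
    have h2 := MonoidHom.eqOn_closure hset
    refine MonoidHom.ext fun x => h2 ?_
    show x ∈ Subgroup.closure (gen n '' Set.Iio (n - 1))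
    rw [closure_gen]
    exact Subgroup.mem_top x
  have h3 : permHom n b = 1 := hb
  rw [h1, MonoidHom.coe_toHomUnits]
  show (Mon t b).trace = _
  unfold Matrix.trace
  refine Finset.sum_congr rfl fun p _ => ?_
  rw [Matrix.diag_apply]
  unfold Mon
  have hSm : Sm (1 : Equiv.Perm (Fin n)) p p := Or.inl ⟨rfl, rfl⟩
  rw [h3, if_pos hSm]

end Pool.Agent.H70.KR
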