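import Mathlib
import Pool.Agent.H70.KR.SOne
import Pool.Agent.H70.KR.Div

set_option autoImplicit false

/-! # Permutation and crossing numbers of the half twist; parity

PROOF. `permHom` is a homomorphism, `permHom (gen k)` exchanges `k` and `k + 1` (`permHom_gen`).
* `perm_desc`: `desc (gen n) 0 (d+1) = gen n d * desc (gen n) 0 d` (`desc_succ'`), so by induction
  `permHom (desc (gen n) 0 d)` (`d ≤ n - 1`) maps `0` to `d`, `x` to `x - 1` for `1 ≤ x ≤ d`, and
  fixes `x > d`.
* `cross_desc`: `crossing n (desc (gen n) 0 d) p q = 1` if `p ≠ q` and (`p = d`, `q < d` or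
  `q = d`, `p < d`), else `0`: induction with `crossing_mul` (`crossing (b c) p q = crossing b p q +
  crossing c (π_b⁻¹ p) (π_b⁻¹ q)`) and `crossing_gen`.
* `perm_Dl`: `permHom (Dl n m)` (`m ≤ n - 1`) maps `x` to `m - x` for `x ≤ m` and fixes `x > m`:
  `Dl (m+1) = Dl m * desc 0 (m+1)`: `0 -> m+1 -> m+1`, `x -> x - 1 -> m - (x-1)`.
* `cross_Dl`: `crossing n (Dl n m) p q = 1` if `p ≠ q`, `p ≤ m`, `q ≤ m`, else `0`: induction: the
  second summand of `crossing_mul` is `crossing (desc 0 (m+1)) (π⁻¹ p) (π⁻¹ q)` with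
  `π = permHom (Dl m)`, an involution, and gives the pairs `{m+1, x}`, `x ≤ m`.
* `th n = Delta n * Delta n`: `permHom (th n) = 1` (reversal twice) and
  `crossing n (th n) p q = 1 + 1` for `p ≠ q`.
* `crossing_even`: the pure braids are the normal closure of the squares of the generators
  (`pureBraid_eq`); `crossing n (gen k * gen k) = 2 pairMat`; for pure `x` and any `g`:
  `crossing n (g * x * g⁻¹) p q = crossing n x (π_g⁻¹ p) (π_g⁻¹ q)` (`crossing_conj_pure`); products
  and inverses of pure braids add up (`crossing_mul` with trivial permutation). Use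
  `Subgroup.closure_induction` for `Subgroup.normalClosure` (closure of the conjugates of the set),
  for the property: pure and all entries even.
* `crossing_conj_pure`: `crossing_mul` twice and `crossing n (g * g⁻¹) = 0`. -/

namespace Pool.Agent.H70.KR

open Pool.Agent.H69.AMU Pool.Agent.H61.AMU

variable {n : ℕ}

private lemma swap_val {i : ℕ} (hi : i < n - 1) (x : Fin n) :
    ((Equiv.swap (⟨i, by omega⟩ : Fin n) ⟨i + 1, by omega⟩ x : Fin n) : ℕ)
      = if (x : ℕ) = i then i + 1 else if (x : ℕ) = i + 1 then i else x := by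
  rw [Equiv.swap_apply_def]
  simp only [Fin.ext_iff]
  split_ifs <;> rfl

private lemma pairMat_val {i j : ℕ} (hi : i < n) (hj : j < n) (p q : Fin n) :
    pairMat n ⟨i, hi⟩ ⟨j, hj⟩ p q = (if (p : ℕ) = i ∧ (q : ℕ) = j then 1 else 0)
      + (if (p : ℕ) = j ∧ (q : ℕ) = i then 1 else 0) := by
  unfold pairMat
  simp only [Matrix.add_apply, Matrix.single_apply, Fin.ext_iff]
  congr 1
  · refine if_congr ?_ rfl rfl
    constructor <;> (rintro ⟨h1, h2⟩; exact ⟨h1.symm, h2.symm⟩)
  · refine if_congr ?_ rfl rfl
    constructor <;> (rintro ⟨h1, h2⟩; exact ⟨h1.symm, h2.symm⟩)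

private lemma perm_desc {d : ℕ} (hd : d ≤ n - 1) (x : Fin n) :
    (permHom n (desc (gen n) 0 d) x : ℕ)
      = if (x : ℕ) = 0 then d else if (x : ℕ) ≤ d then (x : ℕ) - 1 else x := by
  induction d with
  | zero =>
    simp only [desc, map_one, Equiv.Perm.coe_one, id_eq]
    split_ifs <;> omega
  | succ d ih =>
    rw [desc_succ', zero_add, map_mul, Equiv.Perm.mul_apply, permHom_gen (by omega),
      swap_val (by omega), ih (by omega)]
    split_ifs <;> omega

private lemma perm_Dl {m : ℕ} (hm : m ≤ n - 1) (x : Fin n) :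
    (permHom n (Dl n m) x : ℕ) = if (x : ℕ) ≤ m then m - (x : ℕ) else x := by
  induction m generalizing x with
  | zero =>
    simp only [Dl, map_one, Equiv.Perm.coe_one, id_eq]
    split_ifs <;> omega
  | succ m ih =>
    rw [Dl, map_mul, Equiv.Perm.mul_apply, ih (by omega), perm_desc (by omega)]
    split_ifs <;> omega

private lemma perm_Dl_Dl {m : ℕ} (hm : m ≤ n - 1) (x : Fin n) :
    permHom n (Dl n m) (permHom n (Dl n m) x) = x := by
  apply Fin.ext
  rw [perm_Dl hm, perm_Dl hm]
  split_ifs <;> omega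

private lemma perm_Dl_symm {m : ℕ} (hm : m ≤ n - 1) (x : Fin n) :
    (permHom n (Dl n m)).symm x = permHom n (Dl n m) x := by
  rw [Equiv.symm_apply_eq, perm_Dl_Dl hm]

private lemma cross_desc {d : ℕ} (hd : d ≤ n - 1) (p q : Fin n) :
    crossing n (desc (gen n) 0 d) p q
      = if ((p : ℕ) = d ∧ (q : ℕ) < d) ∨ ((q : ℕ) = d ∧ (p : ℕ) < d) then 1 else 0 := by
  induction d generalizing p q with
  | zero =>
    simp only [desc]
    rw [crossing_one, if_neg (by omega)]
    rfl
  | succ d ih =>
    rw [desc_succ', zero_add, crossing_mul, Matrix.add_apply, Matrix.submatrix_apply,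
      crossing_gen n (by omega), permHom_gen (by omega), Equiv.symm_swap, ih (by omega),
      pairMat_val, swap_val (by omega), swap_val (by omega)]
    split_ifs <;> first | rfl | omega

private lemma cross_Dl {m : ℕ} (hm : m ≤ n - 1) (p q : Fin n) :
    crossing n (Dl n m) p q = if (p : ℕ) ≠ q ∧ (p : ℕ) ≤ m ∧ (q : ℕ) ≤ m then 1 else 0 := by
  induction m generalizing p q with
  | zero =>
    simp only [Dl]
    rw [crossing_one, if_neg (by omega)]
    rfl
  | succ m ih =>
    rw [Dl, crossing_mul, Matrix.add_apply, Matrix.submatrix_apply, ih (by omega),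
      cross_desc (by omega), perm_Dl_symm (by omega), perm_Dl_symm (by omega),
      perm_Dl (by omega), perm_Dl (by omega)]
    split_ifs <;> first | rfl | omega

theorem perm_th : permHom n (th n) = 1 := by
  ext x
  rw [th, map_mul, Equiv.Perm.mul_apply, Delta, perm_Dl_Dl le_rfl]
  rfl

theorem crossing_th {p q : Fin n} (h : p ≠ q) : crossing n (th n) p q = 2 := by
  have h1 : ∀ a b : Fin n, a ≠ b → crossing n (Delta n) a b = 1 := by
    intro a b hab
    rw [Delta, cross_Dl le_rfl, if_pos]
    have := Fin.val_ne_of_ne hab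
    omega
  rw [th, crossing_mul, Matrix.add_apply, Matrix.submatrix_apply, h1 p q h,
    h1 _ _ (fun h2 => h ((permHom n (Delta n)).symm.injective h2))]
  norm_num

theorem crossing_mul_pure {a b : BraidGroup n} (ha : a ∈ pureBraid n) (p q : Fin n) :
    crossing n (a * b) p q = crossing n a p q + crossing n b p q := by
  have h1 : permHom n a = 1 := ha
  rw [crossing_mul, Matrix.add_apply, Matrix.submatrix_apply, h1]
  rfl

theorem crossing_conj_pure (g : BraidGroup n) {b : BraidGroup n} (hb : b ∈ pureBraid n)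
    (p q : Fin n) : crossing n (g * b * g⁻¹) p q
      = crossing n b ((permHom n g).symm p) ((permHom n g).symm q) := by
  have h1 : permHom n b = 1 := hb
  have h2 : permHom n (g * b) = permHom n g := by rw [map_mul, h1, mul_one]
  have h3 : crossing n (g * g⁻¹) p q = 0 := by
    rw [mul_inv_cancel, crossing_one]
    rfl
  rw [crossing_mul, Matrix.add_apply, Matrix.submatrix_apply] at h3
  rw [crossing_mul n (g * b), crossing_mul n g b, h2]
  simp only [Matrix.add_apply, Matrix.submatrix_apply]
  omega

theorem crossing_even {b : BraidGroup n} (hb : b ∈ pureBraid n) (p q : Fin n) :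
    ∃ z : ℤ, crossing n b p q = 2 * z := by
  let K : Subgroup (BraidGroup n) :=
    { carrier := {x | x ∈ pureBraid n ∧ ∀ p q, ∃ z : ℤ, crossing n x p q = 2 * z}
      one_mem' := by
        refine ⟨(pureBraid n).one_mem, fun p q => ⟨0, ?_⟩⟩
        rw [crossing_one]
        rfl
      mul_mem' := by
        rintro x y ⟨hx, hx'⟩ ⟨hy, hy'⟩
        refine ⟨(pureBraid n).mul_mem hx hy, fun p q => ?_⟩
        obtain ⟨z, hz⟩ := hx' p q
        obtain ⟨w, hw⟩ := hy' p q
        exact ⟨z + w, by rw [crossing_mul_pure hx, hz, hw]; ring⟩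
      inv_mem' := by
        rintro x ⟨hx, hx'⟩
        refine ⟨(pureBraid n).inv_mem hx, fun p q => ?_⟩
        obtain ⟨z, hz⟩ := hx' p q
        have h1 : crossing n (x * x⁻¹) p q = 0 := by
          rw [mul_inv_cancel, crossing_one]
          rfl
        rw [crossing_mul_pure hx, hz] at h1
        exact ⟨-z, by linarith⟩ }
  have hK : K.Normal := by
    constructor
    rintro x ⟨hx, hx'⟩ g
    refine ⟨(pureBraid_normal n).conj_mem x hx g, fun p q => ?_⟩
    rw [crossing_conj_pure g hx]
    exact hx' _ _
  have hle : pureBraid n ≤ K := by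
    rw [pureBraid_eq]
    apply Subgroup.normalClosure_le_normal
    rintro _ ⟨i, hi, rfl⟩
    refine ⟨?_, fun p q => ⟨pairMat n ⟨i, by omega⟩ ⟨i + 1, by omega⟩ p q, ?_⟩⟩
    · show permHom n (gen n i * gen n i) = 1
      rw [map_mul, permHom_gen hi, Equiv.swap_mul_self]
    · rw [crossing_mul, crossing_gen n hi, permHom_gen hi, pairMat_submatrix,
        Equiv.swap_apply_left, Equiv.swap_apply_right, pairMat_symm n ⟨i + 1, by omega⟩,
        Matrix.add_apply]
      ring
  exact (hle hb).2 p q

end Pool.Agent.H70.KR
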