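import Mathlib
import Pool.Agent.H70.KR.Chb
import Pool.Agent.H70.KR.Prm
import Pool.Agent.H70.KR.PosV
import Pool.Agent.H70.KR.Gcd

set_option autoImplicit false

/-! # A positive conjugate of `th ^ (-μ) * b`

`Out2 n b E`: for every commutative ring `K`, all units `t`, `s` and every homomorphism `rho` with
Krammer's matrices `kr t s n k` on the generators the trace of `rho b ^ m` is the sum over `E` of
`t ^ (m a) * s ^ (m e)`.
PROOF of `mem_crossing`. Apply `Out2` with `K = LaurentPolynomial ℝ`, `t = T 1` (unit), `s = 1`,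
`rho1`, `m = 1`, and `trace_sOne`: `∑ over E of T a = ∑ over p of T (crossing n b p.1.1 p.1.2)`.
Compare the coefficients of index `x.1` for `x ∈ E`: on the left the number of elements of `E` with
first entry `x.1` (a positive number, `Multiset.sum` of `0`s and `1`s, one of them `1`), on the
right the number of `p` with crossing number `x.1`; so there is such a `p`.
PROOF of `val_powers`. By `mem_crossing` all `x ∈ E` have `c ≤ x.1` (`c` a lower bound of the
crossing numbers). `power_bound` for `M = R.M b`, with `Out2` for `K = LaurentPolynomial ℝ`,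
`t = T 1`, `s = C (1/2)` (units; `t ^ (m a) = T (m a)`, `s ^ (m e) = C ((1/2) ^ (m e))`, and `R.rho`)
gives `C` with `VM (c m - C) (R.M b ^ m)`.
PROOF of `positive_conj`. `n ≥ 2`, so there are pairs `p < q`; let `c` be the minimum of the
`crossing n b p q`, `p < q` (attained at `p0 < q0`); `c = 2 μ` (`crossing_even`).
`b1 = th ^ (-μ) * b`; `b1 ^ m = th ^ (-(μ m)) * b ^ m` (`th_central`, `Commute`). `val_powers`:
`VM (2 μ m - C) (R.M (b ^ m))`, choose `C' : ℕ` with `C ≤ 2 C'` (`C' = C`), so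
`VM (2 (μ m - C')) (R.M (b ^ m))` and `pos_of_val`: `th ^ (C' - μ m) * b ^ m` is positive, that is
`LD (th ^ (-C')) (b1 ^ m)`. `exists_glb` for `X = {b1 ^ m | m : ℕ}`, `z = th ^ (-C')`,
`F = R.toKF`: `a` with `LD a (b1 ^ m)` for all `m` and greatest. For all `m`:
`LD (b1⁻¹ * a) (b1 ^ m)`, because multiplication by `b1` on the left (`LD_mul_left`) turns it into
`LD a (b1 ^ (m + 1))`. So `LD (b1⁻¹ * a) a`, i.e. `(b1⁻¹ * a)⁻¹ * a = a⁻¹ * b1 * a` is positive.
Crossing numbers of `b' = a⁻¹ * th ^ (-μ) * b * a`: with `g = a⁻¹` and the pure braid `b1`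
(`perm_th`), `crossing_conj_pure`: `crossing n b' p q = crossing n b1 (π p) (π q)` for a permutation
`π`, and `crossing n b1 p q = crossing n b p q - 2 μ` for `p ≠ q` (`crossing_mul_pure`,
`crossing_th`, powers of `th` by induction: `crossing_th_zpow`). By `crossing_symm` the minimum
over `p < q` is the minimum over `p ≠ q`. So all are `≥ 0` (and `= 0` for `p = q`,
`crossing_diag`) and the pair with `{π p, π q} = {p0, q0}`, ordered, has crossing number `0`. -/

namespace Pool.Agent.H70.KR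

open Pool.Agent.H69.AMU Pool.Agent.H61.AMU LaurentPolynomial

variable {n : ℕ}

/-- Krammer representations with parameters `t`, `s`. -/
def IsKr {K : Type} [CommRing K] (n : ℕ) (t s : Kˣ)
    (rho : BraidGroup n →* (Matrix (Pr n) (Pr n) K)ˣ) : Prop :=
  ∀ k, k < n - 1 → ((rho (gen n k) : (Matrix (Pr n) (Pr n) K)ˣ) :
      Matrix (Pr n) (Pr n) K) = kr (t : K) (s : K) n k

/-- The traces of the powers of `b` in Krammer's representation. -/
def Out2 (n : ℕ) (b : BraidGroup n) (E : Multiset (ℤ × ℤ)) : Prop :=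
  ∀ (K : Type) [CommRing K] (t s : Kˣ) (rho : BraidGroup n →* (Matrix (Pr n) (Pr n) K)ˣ),
    IsKr n t s rho → ∀ m : ℕ,
      (((rho b : (Matrix (Pr n) (Pr n) K)ˣ) : Matrix (Pr n) (Pr n) K) ^ m).trace
        = (E.map fun x => ((t ^ ((m : ℤ) * x.1) * s ^ ((m : ℤ) * x.2) : Kˣ) : K)).sum

/-- The unit `T`. -/
noncomputable def tU : (LaurentPolynomial ℝ)ˣ := ⟨T 1, T (-1), by rw [← T_add]; simp,
  by rw [← T_add]; simp⟩

/-- The unit `1/2`. -/
noncomputable def sU : (LaurentPolynomial ℝ)ˣ :=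
  ⟨C (1 / 2), C 2, by rw [← map_mul]; norm_num, by rw [← map_mul]; norm_num⟩

private lemma tU_zpow (z : ℤ) : ((tU ^ z : (LaurentPolynomial ℝ)ˣ) : LaurentPolynomial ℝ) = T z := by
  have h1 : ((tU : (LaurentPolynomial ℝ)ˣ) : LaurentPolynomial ℝ) = T 1 := rfl
  have h2 : ((tU⁻¹ : (LaurentPolynomial ℝ)ˣ) : LaurentPolynomial ℝ) = T (-1) := rfl
  obtain ⟨k, rfl | rfl⟩ := z.eq_nat_or_neg
  · rw [zpow_natCast, Units.val_pow_eq_pow_val, h1, T_pow, mul_one]
  · rw [zpow_neg, zpow_natCast, ← inv_pow, Units.val_pow_eq_pow_val, h2, T_pow]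
    congr 1
    ring

private lemma sU_zpow (z : ℤ) : ((sU ^ z : (LaurentPolynomial ℝ)ˣ) : LaurentPolynomial ℝ)
    = C ((1 / 2 : ℝ) ^ z) := by
  have h1 : ((sU : (LaurentPolynomial ℝ)ˣ) : LaurentPolynomial ℝ) = C (1 / 2) := rfl
  have h2 : ((sU⁻¹ : (LaurentPolynomial ℝ)ˣ) : LaurentPolynomial ℝ) = C 2 := rfl
  obtain ⟨k, rfl | rfl⟩ := z.eq_nat_or_neg
  · rw [zpow_natCast, zpow_natCast, Units.val_pow_eq_pow_val, h1, map_pow]
  · rw [zpow_neg, zpow_neg, zpow_natCast, zpow_natCast, ← inv_pow, Units.val_pow_eq_pow_val, h2,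
      ← inv_pow, map_pow]
    congr 2
    norm_num

private lemma coeff_T (z i : ℤ) : (T z : LaurentPolynomial ℝ).coeff i = if z = i then 1 else 0 := by
  rw [T, AddMonoidAlgebra.coeff_single, Finsupp.single_apply]

private lemma coeff_sum_T (E : Multiset (ℤ × ℤ)) (a : ℤ) :
    ((E.map fun x => (T x.1 : LaurentPolynomial ℝ)).sum).coeff a
      = (E.countP (fun x => x.1 = a) : ℝ) := by
  induction E using Multiset.induction_on with
  | empty => simp
  | cons x E ih =>
    rw [Multiset.map_cons, Multiset.sum_cons, AddMonoidAlgebra.coeff_add, Finsupp.add_apply, ih,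
      coeff_T, Multiset.countP_cons]
    split_ifs with h
    · push_cast
      ring
    · simp

theorem mem_crossing {b : BraidGroup n} (hb : b ∈ pureBraid n) {E : Multiset (ℤ × ℤ)}
    (hE : Out2 n b E) (rho1 : BraidGroup n →* (Matrix (Pr n) (Pr n) (LaurentPolynomial ℝ))ˣ)
    (h1 : IsKr n tU 1 rho1) {x : ℤ × ℤ} (hx : x ∈ E) :
    ∃ p : Pr n, crossing n b p.1.1 p.1.2 = x.1 := by
  have e1 := hE (LaurentPolynomial ℝ) tU 1 rho1 h1 1
  have e2 := trace_sOne tU rho1 (fun k hk => by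
    have := h1 k hk
    rwa [Units.val_one] at this) hb
  rw [pow_one, e2] at e1
  have e3 : (E.map fun x => ((tU ^ (((1 : ℕ) : ℤ) * x.1) * 1 ^ (((1 : ℕ) : ℤ) * x.2) :
      (LaurentPolynomial ℝ)ˣ) : LaurentPolynomial ℝ)) = E.map fun x => T x.1 := by
    refine Multiset.map_congr rfl fun y _ => ?_
    rw [one_zpow, mul_one, tU_zpow, Nat.cast_one, one_mul]
  rw [e3] at e1
  have e4 := congrArg (fun f : LaurentPolynomial ℝ => f.coeff x.1) e1
  simp only [coeff_sum_T, AddMonoidAlgebra.coeff_sum, Finsupp.finsetSum_apply, tU_zpow,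
    coeff_T] at e4
  by_contra hcon
  push Not at hcon
  rw [Finset.sum_eq_zero fun p _ => if_neg (hcon p)] at e4
  have e5 : 0 < E.countP (fun y => y.1 = x.1) := Multiset.countP_pos.2 ⟨x, hx, rfl⟩
  have e6 : (E.countP (fun y => y.1 = x.1) : ℝ) = 0 := e4.symm
  rw [Nat.cast_eq_zero] at e6
  omega

theorem val_powers (R : KRep n) {b : BraidGroup n} (hb : b ∈ pureBraid n) {E : Multiset (ℤ × ℤ)}
    (hE : Out2 n b E) (rho1 : BraidGroup n →* (Matrix (Pr n) (Pr n) (LaurentPolynomial ℝ))ˣ)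
    (h1 : IsKr n tU 1 rho1) {c : ℤ} (hc : ∀ p : Pr n, c ≤ crossing n b p.1.1 p.1.2) :
    ∃ C : ℕ, ∀ m : ℕ, VM (c * m - C) (R.M (b ^ m)) := by
  obtain ⟨C', hC'⟩ := power_bound (R.M b) E c (fun x hx => by
    obtain ⟨p, hp⟩ := mem_crossing hb hE rho1 h1 hx
    rw [← hp]
    exact hc p) (fun m => by
    have e1 := hE (LaurentPolynomial ℝ) tU sU R.rho (fun k hk => R.hrho k hk) m
    refine e1.trans ?_
    congr 1
    refine Multiset.map_congr rfl fun y _ => ?_
    rw [Units.val_mul, tU_zpow, sU_zpow])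
  refine ⟨C', fun m => ?_⟩
  rw [R.M_pow]
  exact hC' m

theorem crossing_th_zpow (z : ℤ) {p q : Fin n} (h : p ≠ q) : crossing n (th n ^ z) p q = 2 * z := by
  have hth : th n ∈ pureBraid n := perm_th
  have hz : ∀ z : ℤ, crossing n (th n ^ (z + 1)) p q = crossing n (th n ^ z) p q + 2 := by
    intro z
    rw [zpow_add_one, crossing_mul_pure ((pureBraid n).zpow_mem hth z), crossing_th h]
  induction z using Int.induction_on with
  | zero =>
    rw [zpow_zero, crossing_one]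
    rfl
  | succ i ih =>
    rw [hz, ih]
    ring
  | pred i ih =>
    have h1 := hz (-(i : ℤ) - 1)
    rw [sub_add_cancel, ih] at h1
    linarith

theorem positive_conj (hn : 2 ≤ n) (R : KRep n)
    (rho1 : BraidGroup n →* (Matrix (Pr n) (Pr n) (LaurentPolynomial ℝ))ˣ) (h1 : IsKr n tU 1 rho1)
    {b : BraidGroup n} (hb : b ∈ pureBraid n) {E : Multiset (ℤ × ℤ)} (hE : Out2 n b E) :
    ∃ (a : BraidGroup n) (μ : ℤ) (w : List ℕ), (∀ i ∈ w, i < n - 1) ∧
      a⁻¹ * th n ^ (-μ) * b * a = (w.map (gen n)).prod ∧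
      (∀ p q : Fin n, 0 ≤ crossing n (a⁻¹ * th n ^ (-μ) * b * a) p q) ∧
      ∃ p q : Fin n, p < q ∧ crossing n (a⁻¹ * th n ^ (-μ) * b * a) p q = 0 := by
  obtain ⟨p0, -, hp0⟩ := Finset.exists_min_image Finset.univ
    (fun p : Pr n => crossing n b p.1.1 p.1.2)
    ⟨⟨(⟨0, by omega⟩, ⟨1, by omega⟩), by simp⟩, Finset.mem_univ _⟩
  obtain ⟨μ, hμ⟩ := crossing_even hb p0.1.1 p0.1.2
  have hth : th n ∈ pureBraid n := perm_th
  obtain ⟨C', hC'⟩ := val_powers R hb hE rho1 h1 (c := 2 * μ) (fun p => by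
    rw [← hμ]
    exact hp0 p (Finset.mem_univ _))
  set b1 : BraidGroup n := th n ^ (-μ) * b with hb1
  have hcomm : Commute (th n ^ (-μ)) b := by
    have h2 : Commute (th n) b := th_central b
    exact h2.zpow_left (-μ)
  have hpow : ∀ m : ℕ, b1 ^ m = th n ^ (-(μ * m)) * b ^ m := by
    intro m
    rw [hb1, hcomm.mul_pow, ← zpow_natCast (th n ^ (-μ)) m, ← zpow_mul]
    congr 2
    ring
  have hLD : ∀ m : ℕ, LD (th n ^ (-(C' : ℤ))) (b1 ^ m) := by
    intro m
    have h2 : VM (2 * (μ * m - C')) (R.M (b ^ m)) := (hC' m).mono (by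
      have : (0 : ℤ) ≤ C' := Int.natCast_nonneg _
      linarith)
    have h3 := pos_of_val R (b ^ m) (μ * m - C') h2
    unfold LD
    rw [hpow, ← zpow_neg, ← mul_assoc, ← zpow_add]
    have h4 : -(-(C' : ℤ)) + -(μ * m) = -(μ * m - C') := by ring
    rw [h4]
    exact h3
  obtain ⟨a, ha1, ha2⟩ := exists_glb R.toKF (Set.range fun m : ℕ => b1 ^ m) ⟨_, ⟨0, rfl⟩⟩
    (th n ^ (-(C' : ℤ))) (by
      rintro _ ⟨m, rfl⟩
      exact hLD m)
  have hpos : LD (b1⁻¹ * a) a := by
    apply ha2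
    rintro _ ⟨m, rfl⟩
    rw [← LD_mul_left b1, mul_inv_cancel_left]
    have := ha1 (b1 ^ (m + 1)) ⟨m + 1, rfl⟩
    rwa [pow_succ'] at this
  have hfin : (b1⁻¹ * a)⁻¹ * a = a⁻¹ * th n ^ (-μ) * b * a := by
    rw [hb1]
    group
  obtain ⟨w, hw1, hw2⟩ := hpos
  rw [hfin] at hw2
  have hb1p : b1 ∈ pureBraid n := (pureBraid n).mul_mem ((pureBraid n).zpow_mem hth _) hb
  have hconj : a⁻¹ * th n ^ (-μ) * b * a = a⁻¹ * b1 * (a⁻¹)⁻¹ := by
    rw [hb1]
    group
  have hcr : ∀ p q, crossing n (a⁻¹ * th n ^ (-μ) * b * a) p q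
      = crossing n b1 ((permHom n a⁻¹).symm p) ((permHom n a⁻¹).symm q) := by
    intro p q
    rw [hconj, crossing_conj_pure a⁻¹ hb1p]
  have hcb : ∀ p q : Fin n, p ≠ q → crossing n b1 p q = crossing n b p q - 2 * μ := by
    intro p q hpq
    rw [hb1, crossing_mul_pure ((pureBraid n).zpow_mem hth _), crossing_th_zpow _ hpq]
    ring
  have hmin : ∀ p q : Fin n, p ≠ q → 2 * μ ≤ crossing n b p q := by
    intro p q hpq
    rcases lt_or_gt_of_ne hpq with h | h
    · have := hp0 ⟨(p, q), h⟩ (Finset.mem_univ _)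
      simp only [hμ] at this
      exact this
    · have := hp0 ⟨(q, p), h⟩ (Finset.mem_univ _)
      simp only [hμ] at this
      rw [crossing_symm]
      exact this
  refine ⟨a, μ, w, hw1, hw2, fun p q => ?_, ?_⟩
  · by_cases hpq : p = q
    · subst hpq
      rw [crossing_diag]
    · have hne : (permHom n a⁻¹).symm p ≠ (permHom n a⁻¹).symm q :=
        fun h => hpq ((permHom n a⁻¹).symm.injective h)
      rw [hcr, hcb _ _ hne]
      have := hmin _ _ hne
      linarith
  · have hne0 : p0.1.1 ≠ p0.1.2 := p0.2.ne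
    have hz : crossing n b1 p0.1.1 p0.1.2 = 0 := by
      rw [hcb _ _ hne0, hμ]
      ring
    have hne : permHom n a⁻¹ p0.1.1 ≠ permHom n a⁻¹ p0.1.2 :=
      fun h => hne0 ((permHom n a⁻¹).injective h)
    rcases lt_or_gt_of_ne hne with h | h
    · refine ⟨_, _, h, ?_⟩
      rw [hcr, Equiv.symm_apply_apply, Equiv.symm_apply_apply]
      exact hz
    · refine ⟨_, _, h, ?_⟩
      rw [hcr, Equiv.symm_apply_apply, Equiv.symm_apply_apply, crossing_symm]
      exact hz

end Pool.Agent.H70.KR
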